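import Pool.Agent.Lib.MP_3145b1_co.Q.Loc

/-!
# MP_3145b1_co, Q: the partition inequality
-/

set_option autoImplicit false

namespace Pool.Agent.MP3145b1.Q

open Finset Pool.Agent.MP3145b1 Pool.Agent.MP3145b1.F Pool.Agent.MP3145b1.T

variable {n : ℕ}

open Classical in
/-- The influence of `i`: the probability that flipping `x_i` changes the value of `f`. -/
noncomputable def Infl (f : (Fin n → Bool) → ℝ) (i : Fin n) : ℝ :=
  mean fun x => if f (flp i x) = f x then 0 else 1

open Classical in
/-- For uniform `x`, the expected number of the `v ∈ P`, `v ≠ i`, such that `i` is pivotal at `x`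
and not pivotal at the point `x` with `x_v` flipped. -/
noncomputable def Kill (f : (Fin n → Bool) → ℝ) (P : Finset (Fin n)) (i : Fin n) : ℝ :=
  mean fun x => ((P.filter fun v => v ≠ i ∧ f (flp i x) ≠ f x ∧
    f (flp i (flp v x)) = f (flp v x)).card : ℝ)

/-- The block of the variables with the colour `j`. -/
def blo {d : ℕ} (c : Fin n → Fin d) (j : Fin d) : Finset (Fin n) := univ.filter fun i => c i = j

/-- The mean total influence of the restrictions of `f` to the block `j`. -/
noncomputable def blockInf {d : ℕ} (f : (Fin n → Bool) → ℝ) (c : Fin n → Fin d) (j : Fin d) : ℝ :=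
  mean fun x => influence (blk (blo c j) x f)

/-- The mean spectral entropy of the restrictions of `f` to the block `j`. -/
noncomputable def blockEnt {d : ℕ} (f : (Fin n → Bool) → ℝ) (c : Fin n → Fin d) (j : Fin d) : ℝ :=
  mean fun x => specEntropy (blk (blo c j) x f)

/-- The local bound of the mean spectral entropy of the restrictions to the block `j`. -/
noncomputable def blockLoc {d : ℕ} (f : (Fin n → Bool) → ℝ) (c : Fin n → Fin d) (j : Fin d) : ℝ :=
  2 / Real.log 2 * ∑ i ∈ blo c j, Infl f i * phi (Kill f (blo c j) i / Infl f i)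

/-- The right side of the partition inequality. -/
noncomputable def bound {d : ℕ} (f : (Fin n → Bool) → ℝ) (c : Fin n → Fin d) (l : Fin d → ℕ) : ℝ :=
  ∑ j, (2 / Real.log 2 * l j * blockInf f c j + min (blockEnt f c j) (blockLoc f c j))

/-! ### Identification -/

theorem flp_flp (i : Fin n) (x : Fin n → Bool) : flp i (flp i x) = x := by
  funext j
  unfold flp
  by_cases hj : j = i
  · subst hj
    simp
  · simp [Function.update_of_ne, hj]

theorem flp_comm (i v : Fin n) (hiv : i ≠ v) (x : Fin n → Bool) :
    flp i (flp v x) = flp v (flp i x) := by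
  unfold flp
  rw [Function.update_of_ne hiv, Function.update_of_ne hiv.symm, Function.update_comm hiv.symm]

/-- The flip as a permutation. -/
def flpE (i : Fin n) : (Fin n → Bool) ≃ (Fin n → Bool) where
  toFun := flp i
  invFun := flp i
  left_inv := flp_flp i
  right_inv := flp_flp i

theorem mean_flp (i : Fin n) (g : (Fin n → Bool) → ℝ) : mean (fun x => g (flp i x)) = mean g := by
  unfold mean
  congr 1
  exact Equiv.sum_comp (flpE i) g

open Classical in
theorem sen_flp (f : (Fin n → Bool) → ℝ) (hf : ∀ x, f x = 1 ∨ f x = -1) (i : Fin n)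
    (x : Fin n → Bool) : sen f i x = if f (flp i x) = f x then 0 else 1 := by
  have h1 : f (Function.update x i false) * f (Function.update x i true) = f x * f (flp i x) := by
    unfold flp
    cases hx : x i
    · have h2 : Function.update x i false = x := by rw [← hx, Function.update_eq_self]
      rw [h2]
      rfl
    · have h2 : Function.update x i true = x := by rw [← hx, Function.update_eq_self]
      rw [h2, mul_comm]
      rfl
  unfold sen
  rw [h1]
  rcases hf x with h2 | h2 <;> rcases hf (flp i x) with h3 | h3 <;> rw [h2, h3] <;> norm_num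

theorem infl_eq (f : (Fin n → Bool) → ℝ) (hf : ∀ x, f x = 1 ∨ f x = -1) (i : Fin n) :
    Infl f i = infl f i := by
  unfold Infl infl
  congr 1
  funext x
  exact (sen_flp f hf i x).symm

open Classical in
theorem pr_half (f : (Fin n → Bool) → ℝ) (hf : ∀ x, f x = 1 ∨ f x = -1) (i v : Fin n)
    (hiv : i ≠ v) : pr f i v = 2 * mean fun x =>
      if f (flp i x) ≠ f x ∧ f (flp i (flp v x)) = f (flp v x) then (1 : ℝ) else 0 := by
  rw [pr_eq f hf i v hiv]
  set g : (Fin n → Bool) → ℝ := fun x =>
    if f (flp i x) ≠ f x ∧ f (flp i (flp v x)) = f (flp v x) then (1 : ℝ) else 0 with hg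
  have h1 : ∀ x, (if OddSq f i v x then (1 : ℝ) else 0) = g x + g (flp v x) := by
    intro x
    rw [hg]
    simp only [flp_flp]
    unfold OddSq
    rcases hf x with h1 | h1 <;> rcases hf (flp i x) with h2 | h2 <;>
      rcases hf (flp v x) with h3 | h3 <;> rcases hf (flp i (flp v x)) with h4 | h4 <;>
      rw [h1, h2, h3, h4] <;> norm_num
  simp only [h1]
  rw [mean_add, mean_flp]
  ring

theorem thi_eq (f : (Fin n → Bool) → ℝ) (hf : ∀ x, f x = 1 ∨ f x = -1) (A : Finset (Fin n))
    (i : Fin n) : thi f A i = 2 * Kill f A i := by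
  classical
  unfold thi Kill
  have h1 : ∀ x, (((A.filter fun v => v ≠ i ∧ f (flp i x) ≠ f x ∧
      f (flp i (flp v x)) = f (flp v x)).card : ℕ) : ℝ) =
      ∑ v ∈ A.erase i, if f (flp i x) ≠ f x ∧ f (flp i (flp v x)) = f (flp v x)
        then (1 : ℝ) else 0 := by
    intro x
    have h2 : (A.filter fun v => v ≠ i ∧ f (flp i x) ≠ f x ∧
        f (flp i (flp v x)) = f (flp v x)) =
        (A.erase i).filter fun v => f (flp i x) ≠ f x ∧ f (flp i (flp v x)) = f (flp v x) := by
      ext v
      simp only [Finset.mem_filter, Finset.mem_erase]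
      tauto
    rw [h2, Finset.card_filter]
    push_cast
    rfl
  simp only [h1]
  rw [mean_sum, Finset.mul_sum]
  refine Finset.sum_congr rfl fun v hv => ?_
  rw [pr_half f hf i v (Finset.ne_of_mem_erase hv).symm]

theorem log2_pos : 0 < Real.log 2 := Real.log_pos (by norm_num)

theorem mix_upd_mem (A : Finset (Fin n)) (y x : Fin n → Bool) (i : Fin n) (b : Bool) (hi : i ∈ A) :
    mix A (Function.update y i b) x = Function.update (mix A y x) i b := by
  funext j
  unfold mix
  by_cases hj : j = i
  · subst hj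
    simp [hi]
  · simp [hj, Function.update_of_ne]

theorem mean_blk (f : (Fin n → Bool) → ℝ) (hf : ∀ x, f x = 1 ∨ f x = -1) (A : Finset (Fin n)) :
    mean (fun x => influence (blk A x f)) = ∑ i ∈ A, infl f i := by
  have h1 : ∀ x, influence (blk A x f) = ∑ i ∈ A, avg A (sen f i) x := by
    intro x
    rw [influence_sum _ (blk_pm A x hf)]
    rw [← Finset.sum_subset (Finset.subset_univ A)]
    · refine Finset.sum_congr rfl fun i hi => ?_
      unfold infl avg
      congr 1
      funext y
      unfold sen
      simp only [blk_apply]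
      rw [mix_upd_mem A y x i false hi, mix_upd_mem A y x i true hi]
    · intro i _ hi
      unfold infl
      have h2 : sen (blk A x f) i = fun _ => 0 := by
        funext y
        unfold sen
        simp only [blk_apply]
        rw [mix_upd_out A y x i false hi, mix_upd_out A y x i true hi]
        rcases hf (mix A y x) with h | h <;> rw [h] <;> norm_num
      rw [h2, mean_const]
  simp only [h1]
  rw [mean_sum]
  refine Finset.sum_congr rfl fun i _ => ?_
  exact mean_avg A (sen f i)

/-! ### The inequality -/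

theorem kraft_nat {d : ℕ} (l : Fin d → ℕ) (h : ∑ j, (1 / 2 : ℝ) ^ l j ≤ 1) :
    ∑ j, 2 ^ (univ.sup l - l j) ≤ 2 ^ univ.sup l := by
  have h1 : ((∑ j, 2 ^ (univ.sup l - l j) : ℕ) : ℝ) = 2 ^ univ.sup l * ∑ j, (1 / 2 : ℝ) ^ l j := by
    push_cast
    rw [Finset.mul_sum]
    refine Finset.sum_congr rfl fun j _ => ?_
    have h2 : l j ≤ univ.sup l := Finset.le_sup (Finset.mem_univ j)
    rw [one_div_pow, pow_sub₀ _ (by norm_num) h2]
    ring
  have h3 : ((∑ j, 2 ^ (univ.sup l - l j) : ℕ) : ℝ) ≤ ((2 ^ univ.sup l : ℕ) : ℝ) := by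
    rw [h1]
    push_cast
    have : (0 : ℝ) < 2 ^ univ.sup l := by positivity
    nlinarith
  exact_mod_cast h3

theorem kraft (f : (Fin n → Bool) → ℝ) (hf : ∀ x, f x = 1 ∨ f x = -1) {d : ℕ}
    (c : Fin n → Fin d) (l : Fin d → ℕ) (h : ∑ j, (1 / 2 : ℝ) ^ l j ≤ 1) :
    specEntropy f * Real.log 2 ≤
      ∑ j, (Hc f (blo c j) ∅ + 2 * l j * ∑ i ∈ blo c j, infl f i) := by
  rw [← hc_univ]
  -- pass to natural numbers as indices
  set P : ℕ → Finset (Fin n) := fun m => univ.filter fun i => (c i : ℕ) = m with hP
  set l' : ℕ → ℕ := fun m => if hm : m < d then l ⟨m, hm⟩ else 0 with hl'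
  have hPj : ∀ j : Fin d, P j = blo c j := by
    intro j
    rw [hP]
    unfold blo
    refine Finset.filter_congr fun i _ => ?_
    exact Fin.ext_iff.symm
  have hlj : ∀ j : Fin d, l' j = l j := by
    intro j
    rw [hl']
    simp
  have h1 := kraft_aux f hf ((Finset.range d).card + ∑ j ∈ Finset.range d, l' j)
    (Finset.range d) P l' (univ.sup l) le_rfl ?_ ?_ ?_
  · have h2 : (Finset.range d).biUnion P = univ := by
      rw [Finset.eq_univ_iff_forall]
      intro i
      rw [Finset.mem_biUnion]
      exact ⟨c i, Finset.mem_range.2 (c i).2, by simp [hP]⟩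
    rw [h2, Finset.sum_range] at h1
    refine h1.trans (le_of_eq ?_)
    refine Finset.sum_congr rfl fun j _ => ?_
    rw [hPj, hlj]
  · intro i _ j _ hij
    rw [Finset.disjoint_left]
    intro v hv hv'
    simp only [hP, Finset.mem_filter, Finset.mem_univ, true_and] at hv hv'
    exact hij (hv.symm.trans hv')
  · intro j hj
    rw [Finset.mem_range] at hj
    have := hlj ⟨j, hj⟩
    simp only at this
    rw [this]
    exact Finset.le_sup (Finset.mem_univ _)
  · rw [Finset.sum_range]
    simp only [hlj]
    exact kraft_nat l h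

theorem partition (f : (Fin n → Bool) → ℝ) (hf : ∀ x, f x = 1 ∨ f x = -1) {d : ℕ}
    (c : Fin n → Fin d) (l : Fin d → ℕ) (h : ∑ j, (1 / 2 : ℝ) ^ l j ≤ 1) :
    specEntropy f ≤ bound f c l := by
  have hl := log2_pos
  have h1 := kraft f hf c l h
  rw [← le_div_iff₀ hl] at h1
  refine h1.trans ?_
  unfold bound blockInf blockEnt blockLoc
  rw [Finset.sum_div]
  refine Finset.sum_le_sum fun j _ => ?_
  have h3 : mean (fun x => influence (blk (blo c j) x f)) = ∑ i ∈ blo c j, infl f i :=
    mean_blk f hf (blo c j)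
  have h4 : ∑ i ∈ blo c j, Infl f i * phi (Kill f (blo c j) i / Infl f i) =
      ∑ i ∈ blo c j, infl f i * phi (thi f (blo c j) i / (2 * infl f i)) := by
    refine Finset.sum_congr rfl fun i _ => ?_
    rw [thi_eq f hf, infl_eq f hf, mul_div_mul_left _ _ (by norm_num : (2 : ℝ) ≠ 0)]
  rw [h3, h4]
  have h5 : Hc f (blo c j) ∅ / Real.log 2 ≤ min (mean fun x => specEntropy (blk (blo c j) x f))
      (2 / Real.log 2 * ∑ i ∈ blo c j, infl f i * phi (thi f (blo c j) i / (2 * infl f i))) := by
    refine le_min ?_ ?_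
    · rw [hc_eq, mul_div_cancel_left₀ _ hl.ne']
    · rw [div_le_iff₀ hl]
      refine (local_phi f hf (blo c j)).trans (le_of_eq ?_)
      field_simp
  have h6 : (Hc f (blo c j) ∅ + 2 * l j * ∑ i ∈ blo c j, infl f i) / Real.log 2 =
      2 / Real.log 2 * l j * ∑ i ∈ blo c j, infl f i + Hc f (blo c j) ∅ / Real.log 2 := by
    field_simp
    ring
  rw [h6]
  linarith

theorem block_sum (f : (Fin n → Bool) → ℝ) (hf : ∀ x, f x = 1 ∨ f x = -1) {d : ℕ}
    (c : Fin n → Fin d) : ∑ j, blockInf f c j = influence f := by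
  unfold blockInf
  rw [Finset.sum_congr rfl fun j _ => mean_blk f hf (blo c j), influence_sum f hf]
  exact Finset.sum_fiberwise_of_maps_to (fun i _ => Finset.mem_univ (c i)) _

theorem large (f : (Fin n → Bool) → ℝ) (hf : ∀ x, f x = 1 ∨ f x = -1) (B : ℝ)
    (h : specEntropy f ≤ B) : ∃ S : Finset (Fin n), (2 : ℝ) ^ (-(B / 2)) ≤ |coeff f S| := by
  obtain ⟨S, hS⟩ := fin_large f hf B h
  refine ⟨S, le_trans (le_of_eq ?_) hS⟩
  rw [Real.rpow_def_of_pos (by norm_num)]
  congr 1
  ring

theorem closure (f : (Fin n → Bool) → ℝ) (hf : ∀ x, f x = 1 ∨ f x = -1) {d : ℕ}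
    (c : Fin n → Fin d) (k : ℕ) (hdk : d ≤ 2 ^ k) (K : ℝ)
    (h : ∀ (j : Fin d) (x : Fin n → Bool),
      specEntropy (blk (blo c j) x f) ≤ K * influence (blk (blo c j) x f)) :
    specEntropy f ≤ (K + 2 / Real.log 2 * k) * influence f := by
  have hl := log2_pos
  have h1 := main_one f hf d k hdk c
  have h2 : ∀ j : Fin d, mean (fun x => specEntropy (blk (univ.filter fun i => c i = j) x f)) ≤
      K * ∑ i ∈ univ.filter (fun i => c i = j), infl f i := by
    intro j
    rw [← mean_blk f hf, ← mean_mul]
    exact mean_mono (h j)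
  have h3 : ∑ j : Fin d, ∑ i ∈ univ.filter (fun i => c i = j), infl f i = influence f := by
    rw [influence_sum f hf]
    exact Finset.sum_fiberwise_of_maps_to (fun i _ => Finset.mem_univ (c i)) _
  have h4 : ∑ j : Fin d, mean (fun x => specEntropy (blk (univ.filter fun i => c i = j) x f)) ≤
      K * influence f := by
    rw [← h3, Finset.mul_sum]
    exact Finset.sum_le_sum fun j _ => h2 j
  have h5 : specEntropy f * Real.log 2 ≤ (K + 2 / Real.log 2 * k) * influence f * Real.log 2 := by
    have h6 : (K + 2 / Real.log 2 * k) * influence f * Real.log 2 =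
        2 * k * influence f + Real.log 2 * (K * influence f) := by
      field_simp
      ring
    rw [h6]
    exact h1.trans (by nlinarith)
  exact le_of_mul_le_mul_right h5 hl

/-- The number `D`: if `(x, i)` is a uniform pair with `i` pivotal at `x`, the expected number of
the `v ≠ i` for which `i` is not pivotal at the point `x` with `x_v` flipped. -/
noncomputable def meanKill (f : (Fin n → Bool) → ℝ) : ℝ := (∑ i, Kill f univ i) / influence f

theorem global (f : (Fin n → Bool) → ℝ) (hf : ∀ x, f x = 1 ∨ f x = -1) :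
    specEntropy f ≤ 2 / Real.log 2 * (1 + Real.logb 2 (max 1 (meanKill f))) * influence f := by
  have hl := log2_pos
  have h1 := main_three f hf
  have h2 : theta f univ / influence f = 2 * meanKill f := by
    rw [theta_eq f hf]
    unfold meanKill
    have h3 : thA f univ = 2 * ∑ i, Kill f univ i := by
      rw [Finset.mul_sum]
      unfold thA
      refine Finset.sum_congr rfl fun i _ => ?_
      exact thi_eq f hf univ i
    rw [h3]
    ring
  have h4 : Real.logb 2 (max 2 (theta f univ / influence f)) =
      1 + Real.logb 2 (max 1 (meanKill f)) := by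
    rw [h2]
    have h5 : max 2 (2 * meanKill f) = 2 * max 1 (meanKill f) := by
      rw [mul_max_of_nonneg _ _ (by norm_num : (0 : ℝ) ≤ 2), mul_one]
    rw [h5, Real.logb_mul (by norm_num) (by positivity), Real.logb_self_eq_one (by norm_num)]
  rw [h4, ← le_div_iff₀ hl] at h1
  refine h1.trans (le_of_eq ?_)
  ring

end Pool.Agent.MP3145b1.Q
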