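import Mathlib

/-!
# MP_3145b1_co, Q: the two-point logarithmic Sobolev inequality
-/

set_option autoImplicit false

namespace Pool.Agent.MP3145b1.Q

open Real

/-- Upper bound for the logarithm which is exact to third order at one. -/
theorem log_pade (x : ℝ) (hx : -1 < x) : Real.log (1 + x) ≤ x * (6 + x) / (6 + 4 * x) := by
  set h : ℝ → ℝ := fun x => x * (6 + x) / (6 + 4 * x) - Real.log (1 + x) with hh
  have hd : ∀ y : ℝ, -1 < y → HasDerivAt h (y ^ 3 / ((3 + 2 * y) ^ 2 * (1 + y))) y := by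
    intro y hy
    have h1 : HasDerivAt (fun x : ℝ => x * (6 + x)) (1 * (6 + y) + y * 1) y :=
      (hasDerivAt_id y).mul ((hasDerivAt_id y).const_add 6)
    have h2 : HasDerivAt (fun x : ℝ => 6 + 4 * x) (4 * 1) y :=
      ((hasDerivAt_id y).const_mul 4).const_add 6
    have h3 : (6 + 4 * y) ≠ 0 := by linarith
    have h4 := h1.div h2 h3
    have h5 : HasDerivAt (fun x : ℝ => Real.log (1 + x)) (1 / (1 + y)) y := by
      have := ((hasDerivAt_id y).const_add 1).log (by simp; linarith)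
      simpa using this
    have h6 := h4.sub h5
    have h7 : (1 + y) ≠ 0 := by linarith
    have h8 : (3 + 2 * y) ≠ 0 := by linarith
    have h9 : y ^ 3 / ((3 + 2 * y) ^ 2 * (1 + y)) =
        ((1 * (6 + y) + y * 1) * (6 + 4 * y) - y * (6 + y) * (4 * 1)) / (6 + 4 * y) ^ 2 -
          1 / (1 + y) := by
      have h11 : (3 + 2 * y) ^ 2 * (1 + y) ≠ 0 := mul_ne_zero (pow_ne_zero 2 h8) h7
      rw [div_sub_div _ _ (pow_ne_zero 2 h3) h7, div_eq_div_iff h11
        (mul_ne_zero (pow_ne_zero 2 h3) h7)]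
      ring
    rw [h9]
    exact h6
  have h0 : h 0 = 0 := by simp [hh]
  have hnn : 0 ≤ h x := by
    rcases le_total 0 x with h1 | h1
    · have hm : MonotoneOn h (Set.Ici 0) := by
        apply monotoneOn_of_deriv_nonneg (convex_Ici 0)
        · intro y hy
          exact (hd y (by have := Set.mem_Ici.1 hy; linarith)).continuousAt.continuousWithinAt
        · intro y hy
          rw [interior_Ici] at hy
          exact (hd y (by have := Set.mem_Ioi.1 hy; linarith)).differentiableAt.differentiableWithinAt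
        · intro y hy
          rw [interior_Ici] at hy
          have hy' := Set.mem_Ioi.1 hy
          rw [(hd y (by linarith)).deriv]
          positivity
      have := hm (Set.mem_Ici.2 le_rfl) (Set.mem_Ici.2 h1) h1
      linarith
    · have hm : AntitoneOn h (Set.Ioc (-1) 0) := by
        apply antitoneOn_of_deriv_nonpos (convex_Ioc (-1) 0)
        · intro y hy
          exact (hd y hy.1).continuousAt.continuousWithinAt
        · intro y hy
          rw [interior_Ioc] at hy
          exact (hd y hy.1).differentiableAt.differentiableWithinAt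
        · intro y hy
          rw [interior_Ioc] at hy
          rw [(hd y hy.1).deriv]
          have h2 : 0 < 1 + y := by linarith [hy.1]
          have h3 : 0 < 3 + 2 * y := by linarith [hy.1]
          apply div_nonpos_of_nonpos_of_nonneg
          · have h4 : y ^ 3 = y * y ^ 2 := by ring
            rw [h4]
            exact mul_nonpos_of_nonpos_of_nonneg hy.2.le (sq_nonneg y)
          · positivity
      have := hm (Set.mem_Ioc.2 ⟨hx, h1⟩) (Set.mem_Ioc.2 ⟨by norm_num, le_rfl⟩) h1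
      linarith
  have : h x = x * (6 + x) / (6 + 4 * x) - Real.log (1 + x) := rfl
  linarith

theorem log_pade' (x : ℝ) (hx : -1 ≤ x) :
    (1 + x) ^ 2 * Real.log (1 + x) ≤ (1 + x) ^ 2 * (x * (6 + x) / (6 + 4 * x)) := by
  rcases hx.eq_or_lt with h | h
  · rw [← h]
    norm_num
  · exact mul_le_mul_of_nonneg_left (log_pade x h) (sq_nonneg _)

theorem sym_bound (s : ℝ) (h0 : -1 ≤ s) (h1 : s ≤ 1) :
    (1 + s) ^ 2 * Real.log (1 + s) + (1 - s) ^ 2 * Real.log (1 - s) ≤ 3 * s ^ 2 := by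
  have e1 := log_pade' s h0
  have e2 := log_pade' (-s) (by linarith)
  have h3 : 0 < 6 + 4 * s := by linarith
  have h4 : 0 < 6 - 4 * s := by linarith
  have e3 : (1 + s) ^ 2 * (s * (6 + s) / (6 + 4 * s)) + (1 - s) ^ 2 * (-s * (6 - s) / (6 - 4 * s)) ≤
      3 * s ^ 2 := by
    rw [← mul_div_assoc, ← mul_div_assoc, div_add_div _ _ h3.ne' h4.ne', div_le_iff₀ (by positivity)]
    nlinarith [sq_nonneg (s ^ 2), sq_nonneg s]
  have e4 : (1 + -s) = 1 - s := by ring
  have e5 : (6 + -s) = 6 - s := by ring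
  have e6 : (6 + 4 * -s) = 6 - 4 * s := by ring
  rw [e4, e5, e6] at e2
  linarith

/-- The two-point inequality. -/
theorem two_pt (a b : ℝ) (ha : 0 ≤ a) (hb : 0 ≤ b) :
    Real.negMulLog ((a ^ 2 + b ^ 2) / 2) ≤
      (Real.negMulLog (a ^ 2) + Real.negMulLog (b ^ 2)) / 2 + (a - b) ^ 2 / 2 := by
  rcases (add_nonneg ha hb).eq_or_lt with h | hc
  · have h1 : a = 0 := by linarith
    have h2 : b = 0 := by linarith
    rw [h1, h2]
    norm_num
  set c : ℝ := (a + b) / 2 with hcdef
  have hcp : 0 < c := by rw [hcdef]; linarith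
  set s : ℝ := (a - b) / (a + b) with hs
  have hac : a = c * (1 + s) := by
    rw [hcdef, hs]
    field_simp
    ring
  have hbc : b = c * (1 - s) := by
    rw [hcdef, hs]
    field_simp
    ring
  have hs1 : -1 ≤ s := by
    rw [hs, le_div_iff₀ hc]
    linarith
  have hs2 : s ≤ 1 := by
    rw [hs, div_le_iff₀ hc]
    linarith
  have key := sym_bound s hs1 hs2
  -- the logarithms
  have hm : 0 < (a ^ 2 + b ^ 2) / 2 := by
    rw [hac, hbc]
    have : ((c * (1 + s)) ^ 2 + (c * (1 - s)) ^ 2) / 2 = c ^ 2 * (1 + s ^ 2) := by ring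
    rw [this]
    positivity
  have hla : a ^ 2 * Real.log (a ^ 2) = 2 * c ^ 2 * ((1 + s) ^ 2 * Real.log (1 + s)) +
      a ^ 2 * (2 * Real.log c) := by
    rcases (show 0 ≤ 1 + s by linarith).eq_or_lt with h | h
    · rw [hac, ← h]
      simp
    · rw [Real.log_pow, hac, Real.log_mul hcp.ne' h.ne']
      push_cast
      ring
  have hlb : b ^ 2 * Real.log (b ^ 2) = 2 * c ^ 2 * ((1 - s) ^ 2 * Real.log (1 - s)) +
      b ^ 2 * (2 * Real.log c) := by
    rcases (show 0 ≤ 1 - s by linarith).eq_or_lt with h | h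
    · rw [hbc, ← h]
      simp
    · rw [Real.log_pow, hbc, Real.log_mul hcp.ne' h.ne']
      push_cast
      ring
  have hlm : (a ^ 2 + b ^ 2) / 2 * (2 * Real.log c) + (a ^ 2 + b ^ 2) / 2 - c ^ 2 ≤
      (a ^ 2 + b ^ 2) / 2 * Real.log ((a ^ 2 + b ^ 2) / 2) := by
    have h1 := Real.one_sub_inv_le_log_of_pos
      (show 0 < (a ^ 2 + b ^ 2) / 2 / c ^ 2 by positivity)
    rw [Real.log_div hm.ne' (by positivity), Real.log_pow] at h1
    have h2 := mul_le_mul_of_nonneg_left h1 hm.le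
    have h3 : (a ^ 2 + b ^ 2) / 2 * (1 - ((a ^ 2 + b ^ 2) / 2 / c ^ 2)⁻¹) =
        (a ^ 2 + b ^ 2) / 2 - c ^ 2 := by
      rw [inv_div, mul_sub, mul_one, mul_div_cancel₀ _ hm.ne']
    rw [h3] at h2
    push_cast at h2
    linarith
  have hsq : (a ^ 2 + b ^ 2) / 2 = c ^ 2 * (1 + s ^ 2) := by
    rw [hac, hbc]
    ring
  have hd : (a - b) ^ 2 / 2 = 2 * c ^ 2 * s ^ 2 := by
    rw [hac, hbc]
    ring
  simp only [Real.negMulLog]
  have hc2 : 0 < c ^ 2 := by positivity
  have key2 := mul_le_mul_of_nonneg_left key hc2.le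
  rw [hd]
  have e1 : -a ^ 2 * Real.log (a ^ 2) = -(a ^ 2 * Real.log (a ^ 2)) := by ring
  have e2 : -b ^ 2 * Real.log (b ^ 2) = -(b ^ 2 * Real.log (b ^ 2)) := by ring
  have e3 : -((a ^ 2 + b ^ 2) / 2) * Real.log ((a ^ 2 + b ^ 2) / 2) =
    -((a ^ 2 + b ^ 2) / 2 * Real.log ((a ^ 2 + b ^ 2) / 2)) := by ring
  rw [e1, e2, e3, hla, hlb]
  nlinarith [hlm, key2, hsq]

/-- The same for the square roots. -/
theorem two_pt_sqrt (p q : ℝ) (hp : 0 ≤ p) (hq : 0 ≤ q) :
    Real.negMulLog ((p + q) / 2) ≤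
      (Real.negMulLog p + Real.negMulLog q) / 2 + (Real.sqrt p - Real.sqrt q) ^ 2 / 2 := by
  have h := two_pt (Real.sqrt p) (Real.sqrt q) (Real.sqrt_nonneg _) (Real.sqrt_nonneg _)
  rwa [Real.sq_sqrt hp, Real.sq_sqrt hq] at h

end Pool.Agent.MP3145b1.Q
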