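import Pool.Agent.Lib.MP_3145b1_co.T.Tree
import Pool.Agent.Lib.MP_3145b1_co.Q.TwoPt

/-!
# MP_3145b1_co, Q: averages over blocks of variables, restrictions to blocks
-/

set_option autoImplicit false

namespace Pool.Agent.MP3145b1.Q

open Finset Pool.Agent.MP3145b1 Pool.Agent.MP3145b1.F Pool.Agent.MP3145b1.T

variable {n : ℕ}

/-- The restriction of `f` to the block of variables `P` at the point `x` (the coordinates outside
`P` are those of `x`), as a function on the whole cube. -/
def blk (P : Finset (Fin n)) (x : Fin n → Bool) (f : (Fin n → Bool) → ℝ) : (Fin n → Bool) → ℝ :=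
  fun y => f (fun i => if i ∈ P then y i else x i)

theorem blk_apply (P : Finset (Fin n)) (x y : Fin n → Bool) (f : (Fin n → Bool) → ℝ) :
    blk P x f y = f (mix P y x) := rfl

/-- The average over the coordinates in `A`. -/
noncomputable def avg (A : Finset (Fin n)) (g : (Fin n → Bool) → ℝ) (x : Fin n → Bool) : ℝ :=
  mean (fun y => g (mix A y x))

/-! ### Means -/

theorem mean_add (φ ψ : (Fin n → Bool) → ℝ) : mean (fun x => φ x + ψ x) = mean φ + mean ψ := by
  unfold mean
  rw [Finset.sum_add_distrib, add_div]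

theorem mean_sub (φ ψ : (Fin n → Bool) → ℝ) : mean (fun x => φ x - ψ x) = mean φ - mean ψ := by
  unfold mean
  rw [Finset.sum_sub_distrib, sub_div]

theorem mean_mul (a : ℝ) (φ : (Fin n → Bool) → ℝ) : mean (fun x => a * φ x) = a * mean φ := by
  unfold mean
  rw [← Finset.mul_sum, mul_div_assoc]

theorem mean_const (a : ℝ) : mean (fun _ : Fin n → Bool => a) = a := by
  unfold mean
  rw [Finset.sum_const, Finset.card_univ, Fintype.card_pi]
  simp only [Fintype.card_bool, Finset.prod_const, Finset.card_univ, Fintype.card_fin, nsmul_eq_mul]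
  push_cast
  field_simp

theorem mean_mono {φ ψ : (Fin n → Bool) → ℝ} (h : ∀ x, φ x ≤ ψ x) : mean φ ≤ mean ψ := by
  unfold mean
  exact div_le_div_of_nonneg_right (Finset.sum_le_sum fun x _ => h x) (by positivity)

theorem mean_nonneg {φ : (Fin n → Bool) → ℝ} (h : ∀ x, 0 ≤ φ x) : 0 ≤ mean φ := by
  unfold mean
  exact div_nonneg (Finset.sum_nonneg fun x _ => h x) (by positivity)

theorem mean_sum {ι : Type*} (I : Finset ι) (φ : ι → (Fin n → Bool) → ℝ) :
    mean (fun x => ∑ i ∈ I, φ i x) = ∑ i ∈ I, mean (φ i) := by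
  unfold mean
  rw [Finset.sum_comm, Finset.sum_div]

theorem mean_upd (i : Fin n) (g : (Fin n → Bool) → ℝ) :
    mean (fun x => (g (Function.update x i false) + g (Function.update x i true)) / 2) = mean g := by
  unfold mean
  rw [← Finset.sum_div, sum_upd]
  ring

/-- Cauchy-Schwarz. -/
theorem mean_cs (u v : (Fin n → Bool) → ℝ) :
    mean (fun x => u x * v x) ≤ Real.sqrt (mean fun x => u x ^ 2) * Real.sqrt (mean fun x => v x ^ 2) := by
  have h1 : (mean fun x => u x * v x) ^ 2 ≤ (mean fun x => u x ^ 2) * (mean fun x => v x ^ 2) := by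
    unfold mean
    rw [div_pow, div_mul_div_comm, ← pow_two ((2 : ℝ) ^ n)]
    exact div_le_div_of_nonneg_right (Finset.sum_mul_sq_le_sq_mul_sq _ _ _) (by positivity)
  have h2 : 0 ≤ mean fun x => u x ^ 2 := mean_nonneg fun x => sq_nonneg _
  rw [← Real.sqrt_mul h2]
  exact Real.le_sqrt_of_sq_le h1

theorem mean_mink (u v : (Fin n → Bool) → ℝ) :
    (Real.sqrt (mean fun x => u x ^ 2) - Real.sqrt (mean fun x => v x ^ 2)) ^ 2 ≤
      mean (fun x => (u x - v x) ^ 2) := by
  have h1 : mean (fun x => (u x - v x) ^ 2) = (mean fun x => u x ^ 2) + (mean fun x => v x ^ 2) -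
      2 * mean (fun x => u x * v x) := by
    rw [← mean_add, ← mean_mul, ← mean_sub]
    congr 1
    funext x
    ring
  have h2 : 0 ≤ mean fun x => u x ^ 2 := mean_nonneg fun x => sq_nonneg _
  have h3 : 0 ≤ mean fun x => v x ^ 2 := mean_nonneg fun x => sq_nonneg _
  have h4 := mean_cs u v
  rw [h1, sub_sq, Real.sq_sqrt h2, Real.sq_sqrt h3]
  linarith

/-! ### Averages over blocks -/

theorem mix_mix_comm (A : Finset (Fin n)) (y x : Fin n → Bool) (i : Fin n) (b : Bool) (hi : i ∉ A) :
    mix A y (Function.update x i b) = Function.update (mix A y x) i b := by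
  funext j
  unfold mix
  by_cases hj : j = i
  · subst hj
    simp [hi]
  · simp [hj, Function.update_of_ne]

theorem mix_upd_in (A : Finset (Fin n)) (y x : Fin n → Bool) (i : Fin n) (b : Bool) (hi : i ∈ A) :
    mix A y (Function.update x i b) = mix A y x := by
  funext j
  unfold mix
  by_cases hj : j = i
  · subst hj
    simp [hi]
  · simp [hj, Function.update_of_ne]

theorem mix_upd_out (A : Finset (Fin n)) (y x : Fin n → Bool) (i : Fin n) (b : Bool) (hi : i ∉ A) :
    mix A (Function.update y i b) x = mix A y x := by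
  funext j
  unfold mix
  by_cases hj : j = i
  · subst hj
    simp [hi]
  · simp [hj, Function.update_of_ne]

theorem avg_insert (i : Fin n) (A : Finset (Fin n)) (hi : i ∉ A) (g : (Fin n → Bool) → ℝ)
    (x : Fin n → Bool) : avg (insert i A) g x =
      (avg A g (Function.update x i false) + avg A g (Function.update x i true)) / 2 := by
  unfold avg
  rw [← mean_upd i (fun y => g (mix (insert i A) y x))]
  simp only [← mix_upd A _ x i _ hi]
  unfold mean
  rw [← Finset.sum_div, Finset.sum_add_distrib]
  ring

theorem avg_empty (g : (Fin n → Bool) → ℝ) (x : Fin n → Bool) : avg ∅ g x = g x := by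
  unfold avg
  have h : ∀ y : Fin n → Bool, mix ∅ y x = x := fun y => by
    funext j
    simp [mix]
  simp only [h, mean_const]

theorem mean_avg (A : Finset (Fin n)) (g : (Fin n → Bool) → ℝ) : mean (avg A g) = mean g := by
  classical
  induction A using Finset.induction_on with
  | empty =>
    congr 1
    funext x
    exact avg_empty g x
  | insert i A hi ih =>
    rw [← ih, ← mean_upd i (avg A g)]
    congr 1
    funext x
    exact avg_insert i A hi g x

theorem avg_mono (A : Finset (Fin n)) {g h : (Fin n → Bool) → ℝ} (hgh : ∀ x, g x ≤ h x)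
    (x : Fin n → Bool) : avg A g x ≤ avg A h x := mean_mono fun _ => hgh _

theorem avg_nonneg (A : Finset (Fin n)) {g : (Fin n → Bool) → ℝ} (hg : ∀ x, 0 ≤ g x)
    (x : Fin n → Bool) : 0 ≤ avg A g x := mean_nonneg fun _ => hg _

/-! ### Fourier coefficients -/

theorem coeff_mean (f : (Fin n → Bool) → ℝ) (S : Finset (Fin n)) :
    coeff f S = mean (fun x => f x * sgn x S) := by
  unfold coeff mean sgn
  rw [one_div, inv_mul_eq_div]

theorem parseval (f : (Fin n → Bool) → ℝ) :
    ∑ S : Finset (Fin n), coeff f S ^ 2 = mean (fun x => f x ^ 2) := by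
  have h1 : ∑ S : Finset (Fin n), coeff f S ^ 2 =
      ∑ S : Finset (Fin n), fc (fun A => f (cubeEquiv org A)) S ^ 2 :=
    Finset.sum_congr rfl fun S _ => coeff_sq org f S
  rw [h1, par n]
  unfold mean
  rw [Equiv.sum_comp (cubeEquiv org) (fun x => f x ^ 2), one_div_pow, one_div, inv_mul_eq_div]

theorem sgn_upd_out (x : Fin n → Bool) (i : Fin n) (b : Bool) (S : Finset (Fin n)) (hi : i ∉ S) :
    sgn (Function.update x i b) S = sgn x S := by
  unfold sgn
  apply Finset.prod_congr rfl
  intro j hj
  have : j ≠ i := fun h => hi (h ▸ hj)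
  rw [Function.update_of_ne this]

theorem sgn_upd_in (x : Fin n → Bool) (i : Fin n) (b : Bool) (S : Finset (Fin n)) (hi : i ∈ S) :
    sgn (Function.update x i b) S = (if b then (-1 : ℝ) else 1) * sgn x (S.erase i) := by
  unfold sgn
  rw [← Finset.mul_prod_erase S _ hi, Function.update_self]
  congr 1
  apply Finset.prod_congr rfl
  intro j hj
  rw [Function.update_of_ne (Finset.ne_of_mem_erase hj)]

theorem coeff_zero (h : (Fin n → Bool) → ℝ) (i : Fin n) (S : Finset (Fin n)) (hi : i ∈ S)
    (hh : ∀ y b, h (Function.update y i b) = h y) : coeff h S = 0 := by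
  rw [coeff_mean, ← mean_upd i]
  have h1 : ∀ x : Fin n → Bool, (h (Function.update x i false) * sgn (Function.update x i false) S +
      h (Function.update x i true) * sgn (Function.update x i true) S) / 2 = 0 := by
    intro x
    rw [hh, hh, sgn_upd_in x i false S hi, sgn_upd_in x i true S hi]
    simp
  simp only [h1, mean_const]

theorem coeff_blk_zero (A S : Finset (Fin n)) (x : Fin n → Bool) (f : (Fin n → Bool) → ℝ)
    (hS : ¬ S ⊆ A) : coeff (blk A x f) S = 0 := by
  obtain ⟨i, hi, hiA⟩ := Finset.not_subset.1 hS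
  refine coeff_zero _ i S hi fun y b => ?_
  rw [blk_apply, blk_apply, mix_upd_out A y x i b hiA]

theorem sgn_mix (A S T : Finset (Fin n)) (hS : S ⊆ A) (hT : Disjoint T A) (z y : Fin n → Bool) :
    sgn (mix A z y) (S ∪ T) = sgn z S * sgn y T := by
  have hd : Disjoint S T := (hT.mono_right hS).symm
  unfold sgn
  rw [Finset.prod_union hd]
  congr 1
  · apply Finset.prod_congr rfl
    intro j hj
    simp [mix, hS hj]
  · apply Finset.prod_congr rfl
    intro j hj
    have : j ∉ A := fun h => Finset.disjoint_left.1 hT hj h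
    simp [mix, this]

/-- The marginal of the square of the coefficients. -/
theorem marginal (A S : Finset (Fin n)) (hS : S ⊆ A) (h : (Fin n → Bool) → ℝ) :
    mean (fun y => coeff (blk A y h) S ^ 2) = ∑ T ∈ (Aᶜ).powerset, coeff h (S ∪ T) ^ 2 := by
  rw [← parseval (fun y => coeff (blk A y h) S)]
  rw [← Finset.sum_subset (Finset.subset_univ ((Aᶜ).powerset))]
  · apply Finset.sum_congr rfl
    intro T hT
    have hT' : Disjoint T A := by
      rw [Finset.mem_powerset] at hT
      exact Finset.disjoint_left.2 fun j hj hA => (Finset.mem_compl.1 (hT hj)) hA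
    congr 1
    rw [coeff_mean, coeff_mean]
    have h1 : (fun y => coeff (blk A y h) S * sgn y T) =
        avg A (fun z => h z * sgn z (S ∪ T)) := by
      funext y
      unfold avg
      rw [coeff_mean, mul_comm, ← mean_mul]
      congr 1
      funext z
      change sgn y T * (blk A y h z * sgn z S) = h (mix A z y) * sgn (mix A z y) (S ∪ T)
      rw [blk_apply, sgn_mix A S T hS hT']
      ring
    rw [h1, mean_avg]
  · intro T _ hT
    rw [Finset.mem_powerset] at hT
    obtain ⟨i, hi, hiA⟩ := Finset.not_subset.1 hT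
    rw [Finset.mem_compl, not_not] at hiA
    have h1 : coeff (fun y => coeff (blk A y h) S) T = 0 := by
      refine coeff_zero _ i T hi fun y b => ?_
      congr 1
      funext z
      rw [blk_apply, blk_apply, mix_upd_in A z y i b hiA]
    rw [h1]
    ring

end Pool.Agent.MP3145b1.Q
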