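import Pool.Agent.Lib.MP_3145b1_co.Q.Lam

/-!
# MP_3145b1_co, Q: cuts; the final form of the inequalities
-/

set_option autoImplicit false

namespace Pool.Agent.MP3145b1.Q

open Finset Pool.Agent.MP3145b1 Pool.Agent.MP3145b1.F Pool.Agent.MP3145b1.T

variable {n : ℕ}

theorem pr_nonneg (f : (Fin n → Bool) → ℝ) (i v : Fin n) : 0 ≤ pr f i v :=
  mean_nonneg fun _ => abs_nonneg _

theorem pr_le (f : (Fin n → Bool) → ℝ) (hf : ∀ x, f x = 1 ∨ f x = -1) (i v : Fin n) :
    pr f i v ≤ 2 * infl f i := by
  unfold pr infl
  have h1 : ∀ x, |sen f i (Function.update x v false) - sen f i (Function.update x v true)| ≤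
      2 * ((sen f i (Function.update x v false) + sen f i (Function.update x v true)) / 2) := by
    intro x
    rcases sen_01 f hf i (Function.update x v false) with h | h <;>
      rcases sen_01 f hf i (Function.update x v true) with h' | h' <;> rw [h, h'] <;> norm_num
  refine (mean_mono h1).trans (le_of_eq ?_)
  rw [mean_mul, mean_upd]

theorem exists_le_mean (g : (Fin n → Bool) → ℝ) : ∃ x, g x ≤ mean g := by
  by_contra h
  push Not at h
  have h1 : ∑ _x : Fin n → Bool, mean g < ∑ x : Fin n → Bool, g x := by
    apply Finset.sum_lt_sum_of_nonempty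
    · exact ⟨fun _ => false, Finset.mem_univ _⟩
    · intro x _
      exact h x
  have h2 : ∑ _x : Fin n → Bool, mean g = ∑ x : Fin n → Bool, g x := by
    have h3 := mean_const (n := n) (mean g)
    unfold mean at h3 ⊢
    have h4 : (0 : ℝ) < 2 ^ n := by positivity
    rw [div_eq_iff h4.ne'] at h3
    rw [h3, div_mul_cancel₀ _ h4.ne']
  linarith

theorem mean_same (i v : Fin n) (hiv : i ≠ v) :
    mean (fun x : Fin n → Bool => if x i = x v then (1 : ℝ) else 0) = 1 / 2 := by
  rw [← mean_upd i]
  have h1 : ∀ x : Fin n → Bool,
      ((if Function.update x i false i = Function.update x i false v then (1 : ℝ) else 0) +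
        (if Function.update x i true i = Function.update x i true v then (1 : ℝ) else 0)) / 2 =
        1 / 2 := by
    intro x
    rw [Function.update_self, Function.update_self, Function.update_of_ne hiv.symm,
      Function.update_of_ne hiv.symm]
    cases x v <;> norm_num
  simp only [h1, mean_const]

theorem cut (f : (Fin n → Bool) → ℝ) (A : Finset (Fin n)) :
    ∃ B C : Finset (Fin n), B ∪ C = A ∧ Disjoint B C ∧ thA f B + thA f C ≤ thA f A / 2 := by
  have h1 : ∀ x : Fin n → Bool, thA f (A.filter fun i => x i = true) +
      thA f (A.filter fun i => ¬ x i = true) =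
      ∑ i ∈ A, ∑ v ∈ A.erase i, pr f i v * (if x i = x v then (1 : ℝ) else 0) := by
    intro x
    have h2 : ∀ (p : Fin n → Prop) [DecidablePred p], thA f (A.filter p) =
        ∑ i ∈ A, ∑ v ∈ A.erase i, if p i ∧ p v then pr f i v else 0 := by
      intro p _
      unfold thA
      rw [Finset.sum_filter]
      refine Finset.sum_congr rfl fun i _ => ?_
      by_cases hp : p i
      · rw [if_pos hp]
        have h3 : (A.filter p).erase i = (A.erase i).filter p := by
          ext j
          simp only [Finset.mem_erase, Finset.mem_filter]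
          tauto
        rw [h3, Finset.sum_filter]
        refine Finset.sum_congr rfl fun v _ => ?_
        simp [hp]
      · rw [if_neg hp]
        symm
        refine Finset.sum_eq_zero fun v _ => ?_
        rw [if_neg fun h => hp h.1]
    rw [h2, h2, ← Finset.sum_add_distrib]
    refine Finset.sum_congr rfl fun i _ => ?_
    rw [← Finset.sum_add_distrib]
    refine Finset.sum_congr rfl fun v _ => ?_
    cases x i <;> cases x v <;> simp
  have h4 : mean (fun x : Fin n → Bool => thA f (A.filter fun i => x i = true) +
      thA f (A.filter fun i => ¬ x i = true)) = thA f A / 2 := by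
    simp only [h1]
    rw [mean_sum]
    unfold thA
    rw [Finset.sum_div]
    refine Finset.sum_congr rfl fun i _ => ?_
    rw [mean_sum, Finset.sum_div]
    refine Finset.sum_congr rfl fun v hv => ?_
    rw [mean_mul, mean_same i v (Finset.ne_of_mem_erase hv).symm]
    ring
  obtain ⟨x, hx⟩ := exists_le_mean (fun x : Fin n → Bool =>
    thA f (A.filter fun i => x i = true) + thA f (A.filter fun i => ¬ x i = true))
  rw [h4] at hx
  exact ⟨_, _, Finset.filter_union_filter_not_eq _ _, Finset.disjoint_filter_filter_not _ _ _, hx⟩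

theorem cut_pow (f : (Fin n → Bool) → ℝ) (hf : ∀ x, f x = 1 ∨ f x = -1) (k : ℕ) :
    ∀ A : Finset (Fin n), Hc f A ∅ ≤ 2 * k * ∑ i ∈ A, infl f i + thA f A / 2 ^ k := by
  induction k with
  | zero =>
    intro A
    have := ent_le_thA f hf A
    simpa using this
  | succ k ih =>
    intro A
    obtain ⟨B, C, hU, hD, hle⟩ := cut f A
    have h1 := node_inf f hf B C hD
    rw [hU] at h1
    have h2 := ih B
    have h3 := ih C
    have h4 : ∑ i ∈ A, infl f i = ∑ i ∈ B, infl f i + ∑ i ∈ C, infl f i := by
      rw [← Finset.sum_union hD, hU]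
    have h5 : thA f B / 2 ^ k + thA f C / 2 ^ k ≤ thA f A / 2 ^ (k + 1) := by
      have h6 : thA f A / 2 ^ (k + 1) = (thA f A / 2) / 2 ^ k := by
        rw [div_div, pow_succ, mul_comm]
      rw [← add_div, h6]
      exact div_le_div_of_nonneg_right hle (by positivity)
    push_cast
    rw [h4] at h1 ⊢
    nlinarith

end Pool.Agent.MP3145b1.Q
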