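import Pool.Agent.Lib.MP_3145b1_co.Q.Avg

/-!
# MP_3145b1_co, Q: conditional spectral entropies, the one-variable step and the node inequality
-/

set_option autoImplicit false

namespace Pool.Agent.MP3145b1.Q

open Finset Pool.Agent.MP3145b1 Pool.Agent.MP3145b1.F Pool.Agent.MP3145b1.T

variable {n : ℕ}

/-! ### Subadditivity -/

theorem subadd {α β : Type*} (I : Finset α) (J : Finset β) (p : α → β → ℝ)
    (hp : ∀ a ∈ I, ∀ b ∈ J, 0 ≤ p a b) (h1 : ∑ a ∈ I, ∑ b ∈ J, p a b = 1) :
    ∑ a ∈ I, ∑ b ∈ J, Real.negMulLog (p a b) ≤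
      ∑ a ∈ I, Real.negMulLog (∑ b ∈ J, p a b) + ∑ b ∈ J, Real.negMulLog (∑ a ∈ I, p a b) := by
  set q : α → ℝ := fun a => ∑ b ∈ J, p a b with hq
  set r : β → ℝ := fun b => ∑ a ∈ I, p a b with hr
  have hq0 : ∀ a ∈ I, 0 ≤ q a := fun a ha => Finset.sum_nonneg fun b hb => hp a ha b hb
  have hr0 : ∀ b ∈ J, 0 ≤ r b := fun b hb => Finset.sum_nonneg fun a ha => hp a ha b hb
  have key : ∀ a ∈ I, ∀ b ∈ J, Real.negMulLog (p a b) ≤
      -(p a b * Real.log (q a)) - p a b * Real.log (r b) + (q a * r b - p a b) := by
    intro a ha b hb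
    have hpab := hp a ha b hb
    have hpq : p a b ≤ q a := Finset.single_le_sum (f := fun b => p a b) (fun b hb => hp a ha b hb) hb
    have hpr : p a b ≤ r b := Finset.single_le_sum (f := fun a => p a b) (fun a ha => hp a ha b hb) ha
    rcases hpab.eq_or_lt with h0 | hpos
    · rw [← h0]
      simp only [Real.negMulLog_zero, zero_mul, neg_zero, sub_zero, zero_add]
      exact mul_nonneg (hq0 a ha) (hr0 b hb)
    · have hqp : 0 < q a := lt_of_lt_of_le hpos hpq
      have hrp : 0 < r b := lt_of_lt_of_le hpos hpr
      have h2 := Real.log_le_sub_one_of_pos (show 0 < q a * r b / p a b by positivity)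
      rw [Real.log_div (by positivity) hpos.ne', Real.log_mul hqp.ne' hrp.ne'] at h2
      have h3 := mul_le_mul_of_nonneg_left h2 hpos.le
      have h4 : p a b * (q a * r b / p a b - 1) = q a * r b - p a b := by
        field_simp
      rw [h4] at h3
      unfold Real.negMulLog
      linarith
  have hsum := Finset.sum_le_sum fun a ha => Finset.sum_le_sum fun b hb => key a ha b hb
  refine hsum.trans (le_of_eq ?_)
  have e1 : ∑ a ∈ I, ∑ b ∈ J, (-(p a b * Real.log (q a)) - p a b * Real.log (r b) +
      (q a * r b - p a b)) = -(∑ a ∈ I, ∑ b ∈ J, p a b * Real.log (q a)) -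
        (∑ a ∈ I, ∑ b ∈ J, p a b * Real.log (r b)) +
        (∑ a ∈ I, ∑ b ∈ J, q a * r b - ∑ a ∈ I, ∑ b ∈ J, p a b) := by
    simp only [Finset.sum_add_distrib, Finset.sum_sub_distrib, Finset.sum_neg_distrib]
  have e2 : ∑ a ∈ I, ∑ b ∈ J, p a b * Real.log (q a) = ∑ a ∈ I, q a * Real.log (q a) := by
    refine Finset.sum_congr rfl fun a _ => ?_
    rw [← Finset.sum_mul]
  have e3 : ∑ a ∈ I, ∑ b ∈ J, p a b * Real.log (r b) = ∑ b ∈ J, r b * Real.log (r b) := by
    rw [Finset.sum_comm]
    refine Finset.sum_congr rfl fun b _ => ?_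
    rw [← Finset.sum_mul]
  have e4 : ∑ a ∈ I, ∑ b ∈ J, q a * r b = 1 := by
    rw [← Finset.sum_mul_sum]
    have h5 : ∑ b ∈ J, r b = 1 := by
      rw [← h1, Finset.sum_comm]
    rw [h5, h1, one_mul]
  rw [e1, e2, e3, e4, h1]
  unfold Real.negMulLog
  simp only [neg_mul, Finset.sum_neg_distrib]
  ring

/-- The sets as pairs of a subset of `A` and a subset of the complement. -/
theorem sum_split (A : Finset (Fin n)) (g : Finset (Fin n) → ℝ) :
    ∑ S : Finset (Fin n), g S = ∑ S ∈ A.powerset, ∑ T ∈ (Aᶜ).powerset, g (S ∪ T) := by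
  rw [← Finset.sum_product']
  symm
  refine Finset.sum_bij' (fun p _ => p.1 ∪ p.2) (fun S _ => (S ∩ A, S ∩ Aᶜ)) ?_ ?_ ?_ ?_ ?_
  · intro p _
    exact Finset.mem_univ _
  · intro S _
    rw [Finset.mem_product, Finset.mem_powerset, Finset.mem_powerset]
    exact ⟨Finset.inter_subset_right, Finset.inter_subset_right⟩
  · rintro ⟨S, T⟩ h
    rw [Finset.mem_product, Finset.mem_powerset, Finset.mem_powerset] at h
    obtain ⟨hS, hT⟩ := h
    have h1 : (S ∪ T) ∩ A = S := by
      ext j
      simp only [Finset.mem_inter, Finset.mem_union]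
      constructor
      · rintro ⟨h2 | h2, h3⟩
        · exact h2
        · exact absurd h3 (Finset.mem_compl.1 (hT h2))
      · exact fun h2 => ⟨Or.inl h2, hS h2⟩
    have h2 : (S ∪ T) ∩ Aᶜ = T := by
      ext j
      simp only [Finset.mem_inter, Finset.mem_union, Finset.mem_compl]
      constructor
      · rintro ⟨h2 | h2, h3⟩
        · exact absurd (hS h2) h3
        · exact h2
      · exact fun h2 => ⟨Or.inr h2, Finset.mem_compl.1 (hT h2)⟩
    exact Prod.ext h1 h2
  · intro S _
    rw [← Finset.inter_union_distrib_left, Finset.union_compl, Finset.inter_univ]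
  · intro p _
    rfl

/-- Subadditivity of the spectral entropy over a block and its complement. -/
theorem ent_subadd (A : Finset (Fin n)) (h : (Fin n → Bool) → ℝ) (hh : ∀ x, h x = 1 ∨ h x = -1) :
    ∑ S : Finset (Fin n), Real.negMulLog (coeff h S ^ 2) ≤
      ∑ S ∈ A.powerset, Real.negMulLog (mean fun y => coeff (blk A y h) S ^ 2) +
        ∑ S ∈ (Aᶜ).powerset, Real.negMulLog (mean fun y => coeff (blk Aᶜ y h) S ^ 2) := by
  have h1 : ∑ S : Finset (Fin n), coeff h S ^ 2 = 1 := coeff_parseval par h hh
  rw [sum_split A] at h1 ⊢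
  have h2 := subadd A.powerset (Aᶜ).powerset (fun S T => coeff h (S ∪ T) ^ 2)
    (fun _ _ _ _ => sq_nonneg _) h1
  refine h2.trans (le_of_eq ?_)
  congr 1
  · refine Finset.sum_congr rfl fun S hS => ?_
    rw [marginal A S (Finset.mem_powerset.1 hS)]
  · refine Finset.sum_congr rfl fun S hS => ?_
    rw [marginal Aᶜ S (Finset.mem_powerset.1 hS), compl_compl]
    congr 1
    refine Finset.sum_congr rfl fun T _ => ?_
    rw [Finset.union_comm]

/-! ### Conditional entropies -/

/-- The mean conditional entropy of the part in `A` of the spectral sample; the squares of the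
coefficients are averaged over `C`. -/
noncomputable def Hc (f : (Fin n → Bool) → ℝ) (A C : Finset (Fin n)) : ℝ :=
  mean fun x => ∑ S : Finset (Fin n), Real.negMulLog (avg C (fun z => coeff (blk A z f) S ^ 2) x)

/-- The sensitivity indicator. -/
noncomputable def sen (f : (Fin n → Bool) → ℝ) (i : Fin n) (x : Fin n → Bool) : ℝ :=
  (1 - f (Function.update x i false) * f (Function.update x i true)) / 2

/-- The mean of `min (q, 1 - q)`. -/
noncomputable def lam (f : (Fin n → Bool) → ℝ) (i : Fin n) (A : Finset (Fin n)) : ℝ :=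
  mean fun x => min (avg A (sen f i) x) (1 - avg A (sen f i) x)

theorem blk_pm (A : Finset (Fin n)) (x : Fin n → Bool) {f : (Fin n → Bool) → ℝ}
    (hf : ∀ x, f x = 1 ∨ f x = -1) : ∀ y, blk A x f y = 1 ∨ blk A x f y = -1 := fun _ => hf _

/-- The sum over all sets, one variable. -/
theorem step_sum (f : (Fin n → Bool) → ℝ) (hf : ∀ x, f x = 1 ∨ f x = -1) (A : Finset (Fin n))
    (i : Fin n) (hi : i ∉ A) (z : Fin n → Bool) (t : ℝ) (ht : t ^ 2 = 1) :
    ∑ S : Finset (Fin n), (coeff (blk A (Function.update z i false) f) S -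
      t * coeff (blk A (Function.update z i true) f) S) ^ 2 =
      2 - 2 * t * (1 - 2 * avg A (sen f i) z) := by
  have h1 : ∀ S : Finset (Fin n), coeff (blk A (Function.update z i false) f) S -
      t * coeff (blk A (Function.update z i true) f) S =
      coeff (fun y => blk A (Function.update z i false) f y -
        t * blk A (Function.update z i true) f y) S := by
    intro S
    rw [coeff_mean, coeff_mean, coeff_mean, ← mean_mul, ← mean_sub]
    congr 1
    funext y
    ring
  rw [Finset.sum_congr rfl fun S _ => by rw [h1 S], parseval]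
  have h2 : ∀ y, (blk A (Function.update z i false) f y -
      t * blk A (Function.update z i true) f y) ^ 2 =
      2 - 2 * t * (1 - 2 * sen f i (mix A y z)) := by
    intro y
    have h3 : 1 - 2 * sen f i (mix A y z) = blk A (Function.update z i false) f y *
        blk A (Function.update z i true) f y := by
      unfold sen
      rw [blk_apply, blk_apply, mix_mix_comm A y z i false hi, mix_mix_comm A y z i true hi]
      ring
    rw [h3]
    rcases blk_pm A (Function.update z i false) hf y with h4 | h4 <;>
      rcases blk_pm A (Function.update z i true) hf y with h5 | h5 <;> rw [h4, h5] <;>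
      nlinarith [ht]
  simp only [h2]
  rw [mean_sub, mean_const]
  congr 1
  rw [mean_mul, mean_sub, mean_const, mean_mul]
  rfl

/-- The one-variable step. -/
theorem step_one (f : (Fin n → Bool) → ℝ) (hf : ∀ x, f x = 1 ∨ f x = -1) (A C : Finset (Fin n))
    (i : Fin n) (hA : i ∉ A) (hC : i ∉ C) :
    Hc f A (insert i C) ≤ Hc f A C + 2 * lam f i A := by
  set τ : (Fin n → Bool) → ℝ := fun z => if avg A (sen f i) z ≤ 1 / 2 then 1 else -1 with hτ
  have hτ2 : ∀ z, τ z ^ 2 = 1 := by
    intro z
    rw [hτ]
    dsimp only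
    split_ifs <;> norm_num
  set W : Finset (Fin n) → (Fin n → Bool) → ℝ := fun S z =>
    (coeff (blk A (Function.update z i false) f) S -
      τ z * coeff (blk A (Function.update z i true) f) S) ^ 2 with hW
  -- for every `S` and `x`
  have key : ∀ (S : Finset (Fin n)) (x : Fin n → Bool),
      Real.negMulLog (avg (insert i C) (fun z => coeff (blk A z f) S ^ 2) x) ≤
        (Real.negMulLog (avg C (fun z => coeff (blk A z f) S ^ 2) (Function.update x i false)) +
          Real.negMulLog (avg C (fun z => coeff (blk A z f) S ^ 2) (Function.update x i true))) / 2 +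
          avg C (W S) x / 2 := by
    intro S x
    rw [avg_insert i C hC]
    have h0 : ∀ b, 0 ≤ avg C (fun z => coeff (blk A z f) S ^ 2) (Function.update x i b) :=
      fun b => avg_nonneg C (fun z => sq_nonneg _) _
    refine (two_pt_sqrt _ _ (h0 false) (h0 true)).trans ?_
    have h1 : avg C (fun z => coeff (blk A z f) S ^ 2) (Function.update x i false) =
        mean fun y => coeff (blk A (Function.update (mix C y x) i false) f) S ^ 2 := by
      unfold avg
      congr 1
      funext y
      rw [mix_mix_comm C y x i false hC]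
    have h2 : avg C (fun z => coeff (blk A z f) S ^ 2) (Function.update x i true) =
        mean fun y => (τ (mix C y x) *
          coeff (blk A (Function.update (mix C y x) i true) f) S) ^ 2 := by
      unfold avg
      congr 1
      funext y
      rw [mix_mix_comm C y x i true hC, mul_pow, hτ2, one_mul]
    have h3 := mean_mink (fun y => coeff (blk A (Function.update (mix C y x) i false) f) S)
      (fun y => τ (mix C y x) * coeff (blk A (Function.update (mix C y x) i true) f) S)
    rw [← h1, ← h2] at h3
    have h4 : mean (fun y => (coeff (blk A (Function.update (mix C y x) i false) f) S -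
        τ (mix C y x) * coeff (blk A (Function.update (mix C y x) i true) f) S) ^ 2) =
        avg C (W S) x := rfl
    rw [h4] at h3
    linarith
  unfold Hc
  have hsum : ∀ x, ∑ S : Finset (Fin n),
      Real.negMulLog (avg (insert i C) (fun z => coeff (blk A z f) S ^ 2) x) ≤
      (∑ S : Finset (Fin n), Real.negMulLog (avg C (fun z => coeff (blk A z f) S ^ 2)
          (Function.update x i false)) +
        ∑ S : Finset (Fin n), Real.negMulLog (avg C (fun z => coeff (blk A z f) S ^ 2)
          (Function.update x i true))) / 2 + (∑ S : Finset (Fin n), avg C (W S) x) / 2 := by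
    intro x
    refine (Finset.sum_le_sum fun S _ => key S x).trans (le_of_eq ?_)
    rw [Finset.sum_add_distrib, ← Finset.sum_div, ← Finset.sum_div, Finset.sum_add_distrib]
  refine (mean_mono hsum).trans ?_
  rw [mean_add]
  refine add_le_add (le_of_eq ?_) ?_
  · exact mean_upd i (fun x => ∑ S : Finset (Fin n),
      Real.negMulLog (avg C (fun z => coeff (blk A z f) S ^ 2) x))
  · have h5 : mean (fun x => (∑ S : Finset (Fin n), avg C (W S) x) / 2) =
        mean (fun z => ∑ S : Finset (Fin n), W S z) / 2 := by
      have h6 : (fun x => (∑ S : Finset (Fin n), avg C (W S) x) / 2) =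
          fun x => (1 / 2 : ℝ) * ∑ S : Finset (Fin n), avg C (W S) x := by
        funext x
        ring
      rw [h6, mean_mul, mean_sum, mean_sum]
      simp only [mean_avg]
      ring
    rw [h5]
    have h7 : ∀ z, ∑ S : Finset (Fin n), W S z =
        4 * min (avg A (sen f i) z) (1 - avg A (sen f i) z) := by
      intro z
      rw [hW]
      dsimp only
      rw [step_sum f hf A i hA z (τ z) (hτ2 z), hτ]
      dsimp only
      split_ifs with h8
      · rw [min_eq_left (by linarith)]
        ring
      · rw [min_eq_right (by linarith)]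
        ring
    simp only [h7]
    rw [mean_mul]
    unfold lam
    linarith

/-- The step for a block of variables. -/
theorem step_many (f : (Fin n → Bool) → ℝ) (hf : ∀ x, f x = 1 ∨ f x = -1) (A D : Finset (Fin n))
    (hD : Disjoint A D) : Hc f A D ≤ Hc f A ∅ + 2 * ∑ i ∈ D, lam f i A := by
  classical
  induction D using Finset.induction_on with
  | empty => simp
  | insert i D hi ih =>
    have h1 : i ∉ A := fun h => Finset.disjoint_left.1 hD h (Finset.mem_insert_self i D)
    have h2 : Disjoint A D := hD.mono_right (Finset.subset_insert i D)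
    have h3 := step_one f hf A D i h1 hi
    have h4 := ih h2
    rw [Finset.sum_insert hi]
    linarith

/-- The entropy of the restrictions to a union of two blocks. -/
theorem node_sub (f : (Fin n → Bool) → ℝ) (hf : ∀ x, f x = 1 ∨ f x = -1) (A B : Finset (Fin n))
    (hAB : Disjoint A B) : Hc f (A ∪ B) ∅ ≤ Hc f A B + Hc f B A := by
  unfold Hc
  rw [← mean_add]
  refine mean_mono fun x => ?_
  simp only [avg_empty]
  refine (ent_subadd A (blk (A ∪ B) x f) (blk_pm _ x hf)).trans ?_
  have h1 : ∀ y, blk A y (blk (A ∪ B) x f) = blk A (mix B y x) f := by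
    intro y
    funext z
    rw [blk_apply, blk_apply, blk_apply]
    congr 1
    funext j
    unfold mix
    by_cases hA : j ∈ A <;> by_cases hB : j ∈ B <;> simp [hA, hB]
  have h2 : ∀ y, blk Aᶜ y (blk (A ∪ B) x f) = blk B (mix A y x) f := by
    intro y
    funext z
    rw [blk_apply, blk_apply, blk_apply]
    congr 1
    funext j
    unfold mix
    by_cases hA : j ∈ A
    · have hB : j ∉ B := Finset.disjoint_left.1 hAB hA
      simp [hA, hB]
    · by_cases hB : j ∈ B <;> simp [hA, hB]
  simp only [h1, h2]
  refine add_le_add (le_of_eq ?_) (le_of_eq ?_)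
  · refine Finset.sum_subset (Finset.subset_univ _) fun S _ hS => ?_
    rw [Finset.mem_powerset] at hS
    simp only [coeff_blk_zero A S _ f hS]
    rw [zero_pow two_ne_zero, mean_const, Real.negMulLog_zero]
  · refine Finset.sum_subset (Finset.subset_univ _) fun S _ hS => ?_
    rw [Finset.mem_powerset] at hS
    have hS' : ¬ S ⊆ B := fun h => hS fun j hj =>
      Finset.mem_compl.2 fun hA => Finset.disjoint_left.1 hAB hA (h hj)
    simp only [coeff_blk_zero B S _ f hS']
    rw [zero_pow two_ne_zero, mean_const, Real.negMulLog_zero]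

/-- The node inequality. -/
theorem node (f : (Fin n → Bool) → ℝ) (hf : ∀ x, f x = 1 ∨ f x = -1) (A B : Finset (Fin n))
    (hAB : Disjoint A B) : Hc f (A ∪ B) ∅ ≤ Hc f A ∅ + Hc f B ∅ +
      2 * ∑ i ∈ B, lam f i A + 2 * ∑ i ∈ A, lam f i B := by
  have h1 := node_sub f hf A B hAB
  have h2 := step_many f hf A B hAB
  have h3 := step_many f hf B A hAB.symm
  linarith

end Pool.Agent.MP3145b1.Q
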