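import Pool.Agent.Lib.MP_3145b1_co.Q.Cut

/-!
# MP_3145b1_co, Q: the final form
-/

set_option autoImplicit false

namespace Pool.Agent.MP3145b1.Q

open Finset Pool.Agent.MP3145b1 Pool.Agent.MP3145b1.F Pool.Agent.MP3145b1.T

variable {n : ℕ}

/-- The point `x` with the coordinate `i` flipped. -/
def flp (i : Fin n) (x : Fin n → Bool) : Fin n → Bool := Function.update x i (!x i)

/-- The square with the corner `x` and the directions `i` and `v` is odd: the product of the four
values of `f` is `-1`. -/
def OddSq (f : (Fin n → Bool) → ℝ) (i v : Fin n) (x : Fin n → Bool) : Prop :=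
  f x * f (flp i x) * f (flp v x) * f (flp i (flp v x)) = -1

open Classical in
/-- The expected number (for uniform `x`) of the ordered pairs `(i, v)` of different elements of `A`
such that the square with the corner `x` and the directions `i` and `v` is odd. -/
noncomputable def theta (f : (Fin n → Bool) → ℝ) (A : Finset (Fin n)) : ℝ :=
  mean fun x => (((A ×ˢ A).filter fun p => p.1 ≠ p.2 ∧ OddSq f p.1 p.2 x).card : ℝ)

theorem flp_prod (f : (Fin n → Bool) → ℝ) (i v : Fin n) (hiv : i ≠ v) (x : Fin n → Bool) :
    f x * f (flp i x) * f (flp v x) * f (flp i (flp v x)) =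
      f (Function.update (Function.update x v false) i false) *
        f (Function.update (Function.update x v false) i true) *
        (f (Function.update (Function.update x v true) i false) *
        f (Function.update (Function.update x v true) i true)) := by
  have h1 : x = Function.update (Function.update x v (x v)) i (x i) := by
    rw [Function.update_eq_self, Function.update_eq_self]
  have h2 : flp i x = Function.update (Function.update x v (x v)) i (!x i) := by
    rw [Function.update_eq_self]
    rfl
  have h3 : flp v x = Function.update (Function.update x v (!x v)) i (x i) := by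
    rw [Function.update_comm hiv.symm, Function.update_eq_self]
    rfl
  have h4 : flp i (flp v x) = Function.update (Function.update x v (!x v)) i (!x i) := by
    unfold flp
    rw [Function.update_of_ne hiv]
  rw [h4, h3, h2]
  conv_lhs => rw [show f x = f (Function.update (Function.update x v (x v)) i (x i)) by rw [← h1]]
  cases x i <;> cases x v <;> simp only [Bool.not_false, Bool.not_true] <;> ring

open Classical in
theorem pr_eq (f : (Fin n → Bool) → ℝ) (hf : ∀ x, f x = 1 ∨ f x = -1) (i v : Fin n) (hiv : i ≠ v) :
    pr f i v = mean fun x => if OddSq f i v x then (1 : ℝ) else 0 := by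
  unfold pr
  congr 1
  funext x
  unfold OddSq
  rw [flp_prod f i v hiv x]
  unfold sen
  rcases hf (Function.update (Function.update x v false) i false) with h1 | h1 <;>
    rcases hf (Function.update (Function.update x v false) i true) with h2 | h2 <;>
    rcases hf (Function.update (Function.update x v true) i false) with h3 | h3 <;>
    rcases hf (Function.update (Function.update x v true) i true) with h4 | h4 <;>
    rw [h1, h2, h3, h4] <;> norm_num

theorem theta_eq (f : (Fin n → Bool) → ℝ) (hf : ∀ x, f x = 1 ∨ f x = -1) (A : Finset (Fin n)) :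
    theta f A = thA f A := by
  classical
  unfold theta thA
  have h1 : ∀ x, ((((A ×ˢ A).filter fun p => p.1 ≠ p.2 ∧ OddSq f p.1 p.2 x).card : ℕ) : ℝ) =
      ∑ i ∈ A, ∑ v ∈ A.erase i, if OddSq f i v x then (1 : ℝ) else 0 := by
    intro x
    rw [Finset.card_filter, Finset.sum_product]
    push_cast
    refine Finset.sum_congr rfl fun i hi => ?_
    rw [← Finset.add_sum_erase A _ hi]
    simp only [ne_eq, not_true_eq_false, false_and, if_false, zero_add]
    refine Finset.sum_congr rfl fun v hv => ?_
    have hv' : i ≠ v := (Finset.ne_of_mem_erase hv).symm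
    simp [hv']
  simp only [h1]
  rw [mean_sum]
  refine Finset.sum_congr rfl fun i _ => ?_
  rw [mean_sum]
  refine Finset.sum_congr rfl fun v hv => ?_
  rw [pr_eq f hf i v (Finset.ne_of_mem_erase hv).symm]

theorem cube_flp (A : Finset (Fin n)) (v : Fin n) :
    cubeEquiv org (symmDiff A {v}) = flp v (cubeEquiv org A) := by
  funext j
  by_cases hj : j = v
  · subst hj
    by_cases hA : j ∈ A <;> simp [cubeEquiv, org, flp, Finset.mem_symmDiff, hA]
  · simp [cubeEquiv, org, flp, Finset.mem_symmDiff, hj]

theorem influence_sum (f : (Fin n → Bool) → ℝ) (hf : ∀ x, f x = 1 ∨ f x = -1) :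
    influence f = ∑ i, infl f i := by
  rw [influence_eq org f, inf1E par n _ (fun A => hf _)]
  refine Finset.sum_congr rfl fun v _ => ?_
  unfold inf1 infl mean
  rw [Finset.card_filter]
  push_cast
  rw [← Equiv.sum_comp (cubeEquiv org) (sen f v), one_div_pow, one_div, inv_mul_eq_div]
  congr 1
  refine Finset.sum_congr rfl fun A _ => ?_
  rw [cube_flp]
  set x := cubeEquiv org A
  have h1 : f (Function.update x v false) * f (Function.update x v true) = f x * f (flp v x) := by
    unfold flp
    cases hx : x v
    · have h2 : Function.update x v false = x := by rw [← hx, Function.update_eq_self]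
      rw [h2]
      rfl
    · have h2 : Function.update x v true = x := by rw [← hx, Function.update_eq_self]
      rw [h2, mul_comm]
      rfl
  unfold sen
  rw [h1]
  rcases hf x with h2 | h2 <;> rcases hf (flp v x) with h3 | h3 <;> rw [h2, h3] <;> norm_num

theorem spec_eq (g : (Fin n → Bool) → ℝ) :
    specEntropy g * Real.log 2 = ∑ S : Finset (Fin n), Real.negMulLog (coeff g S ^ 2) := by
  have hl : Real.log 2 ≠ 0 := (Real.log_pos (by norm_num)).ne'
  rw [fin_entropy g, div_mul_cancel₀ _ hl]
  unfold He
  refine Finset.sum_congr rfl fun S _ => ?_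
  rw [coeff_sq org]

theorem hc_eq (f : (Fin n → Bool) → ℝ) (A : Finset (Fin n)) :
    Hc f A ∅ = Real.log 2 * mean (fun x => specEntropy (blk A x f)) := by
  unfold Hc
  simp only [avg_empty]
  rw [← mean_mul]
  congr 1
  funext x
  rw [← spec_eq]
  ring

theorem hc_univ (f : (Fin n → Bool) → ℝ) : Hc f univ ∅ = specEntropy f * Real.log 2 := by
  rw [hc_eq]
  have h1 : ∀ x, blk univ x f = f := by
    intro x
    funext y
    rw [blk_apply]
    congr 1
    funext j
    simp [mix]
  simp only [h1, mean_const]
  ring

/-- The numerical lemma. -/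
theorem num (r : ℝ) (hr : 2 ≤ r) : ∃ k : ℕ, 2 * (k : ℝ) + r / 2 ^ k ≤ 2 * Real.logb 2 r := by
  have hrp : 0 < r := by linarith
  set L : ℝ := Real.logb 2 r with hL
  have hL1 : 1 ≤ L := by
    rw [hL, Real.le_logb_iff_rpow_le (by norm_num) hrp]
    simpa using hr
  have hr2 : r = 2 ^ L := (Real.rpow_logb (by norm_num) (by norm_num) hrp).symm
  have hfl : 1 ≤ ⌊L⌋₊ := Nat.le_floor (by simpa using hL1)
  obtain ⟨k, hk⟩ : ∃ k : ℕ, ⌊L⌋₊ = k + 1 := ⟨⌊L⌋₊ - 1, by omega⟩
  have h1 : (k : ℝ) + 1 ≤ L := by
    have := Nat.floor_le (show 0 ≤ L by linarith)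
    rw [hk] at this
    push_cast at this
    exact this
  have h2 : L < (k : ℝ) + 2 := by
    have := Nat.lt_floor_add_one L
    rw [hk] at this
    push_cast at this
    linarith
  refine ⟨k, ?_⟩
  set s : ℝ := L - (k + 1) with hs
  have hs0 : 0 ≤ s := by linarith
  have hs1 : s ≤ 1 := by linarith
  have h3 : (2 : ℝ) ^ s ≤ 1 + s := by
    have := rpow_one_add_le_one_add_mul_self (s := 1) (by norm_num) hs0 hs1
    rw [mul_one, one_add_one_eq_two] at this
    exact this
  have h4 : r / 2 ^ k = 2 * (2 : ℝ) ^ s := by
    rw [hr2, show L = (k : ℝ) + 1 + s by rw [hs]; ring, Real.rpow_add (by norm_num),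
      Real.rpow_add (by norm_num), Real.rpow_natCast, Real.rpow_one]
    field_simp
  rw [h4]
  linarith

theorem infl_sum_nonneg (f : (Fin n → Bool) → ℝ) (hf : ∀ x, f x = 1 ∨ f x = -1) :
    0 ≤ influence f := by
  rw [influence_sum f hf]
  exact Finset.sum_nonneg fun i _ => infl_nonneg f hf i

/-- The inequality for the whole cube. -/
theorem main_three (f : (Fin n → Bool) → ℝ) (hf : ∀ x, f x = 1 ∨ f x = -1) :
    specEntropy f * Real.log 2 ≤
      2 * influence f * Real.logb 2 (max 2 (theta f univ / influence f)) := by
  have h0 := infl_sum_nonneg f hf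
  have hk : ∀ k : ℕ, specEntropy f * Real.log 2 ≤
      2 * k * influence f + theta f univ / 2 ^ k := by
    intro k
    rw [← hc_univ, theta_eq f hf, influence_sum f hf]
    exact cut_pow f hf k univ
  rcases h0.eq_or_lt with h1 | h1
  · -- influence zero
    have h2 : ∀ i, infl f i = 0 := by
      intro i
      rw [influence_sum f hf] at h1
      exact (Finset.sum_eq_zero_iff_of_nonneg fun i _ => infl_nonneg f hf i).1 h1.symm i
        (Finset.mem_univ i)
    have h3 : theta f univ ≤ 0 := by
      rw [theta_eq f hf]
      unfold thA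
      refine Finset.sum_nonpos fun i _ => Finset.sum_nonpos fun v _ => ?_
      have := pr_le f hf i v
      rw [h2] at this
      linarith
    have h4 := hk 0
    rw [← h1] at h4 ⊢
    simp only [mul_zero, zero_add, pow_zero, div_one, zero_mul] at h4 ⊢
    linarith
  · set r : ℝ := theta f univ / influence f with hr
    have hth : theta f univ = influence f * r := by
      rw [hr]
      field_simp
    rcases le_total r 2 with h2 | h2
    · rw [max_eq_left h2]
      have h3 := hk 0
      rw [hth] at h3
      have h4 : Real.logb 2 2 = 1 := Real.logb_self_eq_one (by norm_num)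
      rw [h4]
      simp only [Nat.cast_zero, mul_zero, zero_mul, zero_add, pow_zero, div_one] at h3
      nlinarith
    · rw [max_eq_right h2]
      obtain ⟨k, hk'⟩ := num r h2
      have h3 := hk k
      rw [hth] at h3
      have h4 : 2 * (k : ℝ) * influence f + influence f * r / 2 ^ k =
          influence f * (2 * (k : ℝ) + r / 2 ^ k) := by ring
      rw [h4] at h3
      have h5 := mul_le_mul_of_nonneg_left hk' h0
      linarith

/-- Partitions in `d` blocks. -/
theorem main_one (f : (Fin n → Bool) → ℝ) (hf : ∀ x, f x = 1 ∨ f x = -1) (d k : ℕ)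
    (hdk : d ≤ 2 ^ k) (c : Fin n → Fin d) :
    specEntropy f * Real.log 2 ≤ 2 * k * influence f +
      Real.log 2 * ∑ j : Fin d, mean (fun x => specEntropy (blk (univ.filter fun i => c i = j) x f)) := by
  have h1 := part_pow f hf k univ (fun i => (c i : ℕ)) (fun i => lt_of_lt_of_le (c i).2 hdk)
  rw [hc_univ, ← influence_sum f hf] at h1
  have h2 : ∑ j ∈ Finset.range (2 ^ k), Hc f (univ.filter fun i => ((c i : ℕ)) = j) ∅ =
      ∑ j : Fin d, Hc f (univ.filter fun i => c i = j) ∅ := by
    rw [← Finset.sum_subset (Finset.range_mono hdk), Finset.sum_range]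
    · refine Finset.sum_congr rfl fun j _ => ?_
      congr 1
      refine Finset.filter_congr fun i _ => ?_
      exact Fin.ext_iff.symm
    · intro j _ hj
      rw [Finset.mem_range, not_lt] at hj
      have h3 : (univ.filter fun i => ((c i : ℕ)) = j) = ∅ := by
        rw [Finset.filter_eq_empty_iff]
        intro i _ h
        have := (c i).2
        omega
      rw [h3]
      exact ent_none f hf
  rw [h2] at h1
  rw [Finset.mul_sum]
  simp only [hc_eq] at h1
  linarith

end Pool.Agent.MP3145b1.Q
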