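import Pool.Agent.Lib.MP_3145b1_co.Q.Ent
import Pool.Agent.Lib.MP_3145b1_co.Inf1

/-!
# MP_3145b1_co, Q: bounds of the costs, odd squares, partitions and cuts
-/

set_option autoImplicit false

namespace Pool.Agent.MP3145b1.Q

open Finset Pool.Agent.MP3145b1 Pool.Agent.MP3145b1.F Pool.Agent.MP3145b1.T

variable {n : ℕ}

/-- The probability that the square in the directions `i`, `v` is odd. -/
noncomputable def pr (f : (Fin n → Bool) → ℝ) (i v : Fin n) : ℝ :=
  mean fun x => |sen f i (Function.update x v false) - sen f i (Function.update x v true)|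

/-- The influence of `i`. -/
noncomputable def infl (f : (Fin n → Bool) → ℝ) (i : Fin n) : ℝ := mean (sen f i)

theorem sen_01 (f : (Fin n → Bool) → ℝ) (hf : ∀ x, f x = 1 ∨ f x = -1) (i : Fin n)
    (x : Fin n → Bool) : sen f i x = 0 ∨ sen f i x = 1 := by
  unfold sen
  rcases hf (Function.update x i false) with h1 | h1 <;>
    rcases hf (Function.update x i true) with h2 | h2 <;> rw [h1, h2] <;> norm_num

theorem infl_nonneg (f : (Fin n → Bool) → ℝ) (hf : ∀ x, f x = 1 ∨ f x = -1) (i : Fin n) :
    0 ≤ infl f i := by
  refine mean_nonneg fun x => ?_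
  rcases sen_01 f hf i x with h | h <;> rw [h] <;> norm_num

theorem lam_le_infl (f : (Fin n → Bool) → ℝ) (i : Fin n) (A : Finset (Fin n)) :
    lam f i A ≤ infl f i := by
  unfold lam infl
  rw [← mean_avg A (sen f i)]
  exact mean_mono fun x => min_le_left _ _

theorem psi_lip (a b : ℝ) : min ((a + b) / 2) (1 - (a + b) / 2) ≤
    (min a (1 - a) + min b (1 - b)) / 2 + |a - b| / 2 := by
  have h1 : ∀ c d : ℝ, min c (1 - c) ≤ min d (1 - d) + |c - d| := by
    intro c d
    rcases min_choice d (1 - d) with h | h
    · rw [h]
      exact (min_le_left _ _).trans (by linarith [le_abs_self (c - d)])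
    · rw [h]
      exact (min_le_right _ _).trans (by linarith [neg_abs_le (c - d)])
  have h2 := h1 ((a + b) / 2) a
  have h3 := h1 ((a + b) / 2) b
  have h4 : |(a + b) / 2 - a| = |a - b| / 2 := by
    rw [show (a + b) / 2 - a = -((a - b) / 2) by ring, abs_neg, abs_div, abs_two]
  have h5 : |(a + b) / 2 - b| = |a - b| / 2 := by
    rw [show (a + b) / 2 - b = (a - b) / 2 by ring, abs_div, abs_two]
  rw [h4] at h2
  rw [h5] at h3
  linarith

theorem avg_abs (A : Finset (Fin n)) (g : (Fin n → Bool) → ℝ) (v : Fin n) (hv : v ∉ A)
    (x : Fin n → Bool) :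
    |avg A g (Function.update x v false) - avg A g (Function.update x v true)| ≤
      avg A (fun z => |g (Function.update z v false) - g (Function.update z v true)|) x := by
  unfold avg
  rw [← mean_sub]
  have h1 : ∀ φ : (Fin n → Bool) → ℝ, |mean φ| ≤ mean fun y => |φ y| := by
    intro φ
    unfold mean
    rw [abs_div, abs_of_pos (show (0 : ℝ) < 2 ^ n by positivity)]
    exact div_le_div_of_nonneg_right (Finset.abs_sum_le_sum_abs _ _) (by positivity)
  refine (h1 _).trans (le_of_eq ?_)
  congr 1
  funext y
  rw [mix_mix_comm A y x v false hv, mix_mix_comm A y x v true hv]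

theorem lam_le_pr (f : (Fin n → Bool) → ℝ) (hf : ∀ x, f x = 1 ∨ f x = -1) (i : Fin n)
    (A : Finset (Fin n)) : 2 * lam f i A ≤ ∑ v ∈ A, pr f i v := by
  classical
  induction A using Finset.induction_on with
  | empty =>
    unfold lam
    have h1 : ∀ x, min (avg ∅ (sen f i) x) (1 - avg ∅ (sen f i) x) = 0 := by
      intro x
      rw [avg_empty]
      rcases sen_01 f hf i x with h | h <;> rw [h] <;> norm_num
    simp only [h1, mean_const]
    simp
  | insert v A hv ih =>
    rw [Finset.sum_insert hv]
    have h1 : lam f i (insert v A) ≤ lam f i A + pr f i v / 2 := by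
      unfold lam
      have h2 : ∀ x, min (avg (insert v A) (sen f i) x) (1 - avg (insert v A) (sen f i) x) ≤
          (min (avg A (sen f i) (Function.update x v false))
              (1 - avg A (sen f i) (Function.update x v false)) +
            min (avg A (sen f i) (Function.update x v true))
              (1 - avg A (sen f i) (Function.update x v true))) / 2 +
            1 / 2 * avg A (fun z => |sen f i (Function.update z v false) -
              sen f i (Function.update z v true)|) x := by
        intro x
        rw [avg_insert v A hv]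
        refine (psi_lip _ _).trans ?_
        have := avg_abs A (sen f i) v hv x
        linarith
      refine (mean_mono h2).trans ?_
      rw [mean_add, mean_mul, mean_upd v (fun x => min (avg A (sen f i) x) (1 - avg A (sen f i) x)),
        mean_avg]
      unfold pr
      linarith
    linarith

/-- A function of one variable. -/
theorem ent_one (f : (Fin n → Bool) → ℝ) (hf : ∀ x, f x = 1 ∨ f x = -1) (i : Fin n) :
    Hc f {i} ∅ = 0 := by
  unfold Hc
  have h1 : ∀ (x : Fin n → Bool) (S : Finset (Fin n)),
      Real.negMulLog (coeff (blk {i} x f) S ^ 2) = 0 := by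
    intro x S
    by_cases hS : S ⊆ {i}
    · have h2 : coeff (blk {i} x f) S = (f (Function.update x i false) +
          (if S = ∅ then 1 else -1) * f (Function.update x i true)) / 2 := by
        have hb : ∀ (y : Fin n → Bool) (b : Bool), blk {i} x f (Function.update y i b) =
            f (Function.update x i b) := by
          intro y b
          rw [blk_apply]
          congr 1
          funext j
          unfold mix
          by_cases hj : j = i
          · subst hj
            simp
          · simp [hj, Function.update_of_ne]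
        rw [coeff_mean, ← mean_upd i]
        rcases Finset.subset_singleton_iff.1 hS with h3 | h3
        · rw [if_pos h3, h3]
          simp only [hb]
          unfold sgn
          simp only [Finset.prod_empty, mul_one, one_mul, mean_const]
        · have hne : S ≠ ∅ := by
            rw [h3]
            exact Finset.singleton_ne_empty i
          rw [if_neg hne, h3]
          simp only [hb]
          unfold sgn
          simp only [Finset.prod_singleton, Function.update_self, Bool.false_eq_true, if_false,
            if_true, mul_one, mul_neg, neg_mul, one_mul, mean_const]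
      rw [h2]
      have h3 : ((f (Function.update x i false) + (if S = ∅ then 1 else -1) *
          f (Function.update x i true)) / 2) ^ 2 = 0 ∨
          ((f (Function.update x i false) + (if S = ∅ then 1 else -1) *
          f (Function.update x i true)) / 2) ^ 2 = 1 := by
        split_ifs <;> rcases hf (Function.update x i false) with h4 | h4 <;>
          rcases hf (Function.update x i true) with h5 | h5 <;> rw [h4, h5] <;> norm_num
      rcases h3 with h3 | h3 <;> rw [h3]
      · exact Real.negMulLog_zero
      · exact Real.negMulLog_one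
    · rw [coeff_blk_zero {i} S x f hS, zero_pow two_ne_zero, Real.negMulLog_zero]
  simp only [avg_empty, h1, Finset.sum_const_zero, mean_const]

theorem ent_none (f : (Fin n → Bool) → ℝ) (hf : ∀ x, f x = 1 ∨ f x = -1) :
    Hc f ∅ ∅ = 0 := by
  unfold Hc
  have h1 : ∀ (x : Fin n → Bool) (S : Finset (Fin n)),
      Real.negMulLog (coeff (blk ∅ x f) S ^ 2) = 0 := by
    intro x S
    by_cases hS : S ⊆ ∅
    · have h2 : S = ∅ := Finset.subset_empty.1 hS
      have h3 : coeff (blk ∅ x f) S = f x := by
        rw [coeff_mean, h2]
        unfold sgn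
        simp only [Finset.prod_empty, mul_one]
        have h4 : ∀ y, blk ∅ x f y = f x := by
          intro y
          rw [blk_apply]
          congr 1
        have h5 : (blk ∅ x f) = fun _ => f x := funext h4
        rw [h5, mean_const]
      rw [h3]
      rcases hf x with h4 | h4 <;> rw [h4] <;> norm_num
    · rw [coeff_blk_zero ∅ S x f hS, zero_pow two_ne_zero, Real.negMulLog_zero]
  simp only [avg_empty, h1, Finset.sum_const_zero, mean_const]

/-! ### Odd squares in a block -/

/-- The expected number of ordered pairs in `A` with an odd square. -/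
noncomputable def thA (f : (Fin n → Bool) → ℝ) (A : Finset (Fin n)) : ℝ :=
  ∑ i ∈ A, ∑ v ∈ A.erase i, pr f i v

theorem thA_insert (f : (Fin n → Bool) → ℝ) (i : Fin n) (A : Finset (Fin n)) (hi : i ∉ A) :
    thA f (insert i A) = thA f A + ∑ v ∈ A, (pr f i v + pr f v i) := by
  unfold thA
  rw [Finset.sum_insert hi, Finset.erase_insert hi, Finset.sum_add_distrib]
  have h1 : ∑ x ∈ A, ∑ v ∈ (insert i A).erase x, pr f x v =
      ∑ x ∈ A, ∑ v ∈ A.erase x, pr f x v + ∑ x ∈ A, pr f x i := by
    rw [← Finset.sum_add_distrib]
    refine Finset.sum_congr rfl fun x hx => ?_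
    have hxi : i ≠ x := fun h => hi (h ▸ hx)
    rw [Finset.erase_insert_of_ne hxi, Finset.sum_insert (fun h => hi (Finset.mem_of_mem_erase h))]
    ring
  rw [h1]
  ring

theorem ent_le_thA (f : (Fin n → Bool) → ℝ) (hf : ∀ x, f x = 1 ∨ f x = -1) (A : Finset (Fin n)) :
    Hc f A ∅ ≤ thA f A := by
  classical
  induction A using Finset.induction_on with
  | empty =>
    rw [ent_none f hf]
    simp [thA]
  | insert i A hi ih =>
    have h1 := node f hf {i} A (Finset.disjoint_singleton_left.2 hi)
    rw [← Finset.insert_eq, ent_one f hf i, Finset.sum_singleton] at h1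
    rw [thA_insert f i A hi, Finset.sum_add_distrib]
    have h2 := lam_le_pr f hf i A
    have h3 : 2 * ∑ v ∈ A, lam f v {i} ≤ ∑ v ∈ A, pr f v i := by
      rw [Finset.mul_sum]
      refine Finset.sum_le_sum fun v _ => ?_
      have := lam_le_pr f hf v {i}
      rwa [Finset.sum_singleton] at this
    linarith

/-! ### Two blocks, with influences -/

theorem node_inf (f : (Fin n → Bool) → ℝ) (hf : ∀ x, f x = 1 ∨ f x = -1) (A B : Finset (Fin n))
    (hAB : Disjoint A B) : Hc f (A ∪ B) ∅ ≤ Hc f A ∅ + Hc f B ∅ + 2 * ∑ i ∈ A ∪ B, infl f i := by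
  have h1 := node f hf A B hAB
  have h2 : ∑ i ∈ B, lam f i A ≤ ∑ i ∈ B, infl f i :=
    Finset.sum_le_sum fun i _ => lam_le_infl f i A
  have h3 : ∑ i ∈ A, lam f i B ≤ ∑ i ∈ A, infl f i :=
    Finset.sum_le_sum fun i _ => lam_le_infl f i B
  rw [Finset.sum_union hAB]
  linarith

/-- Partition in `2 ^ k` blocks. -/
theorem part_pow (f : (Fin n → Bool) → ℝ) (hf : ∀ x, f x = 1 ∨ f x = -1) (k : ℕ) :
    ∀ (A : Finset (Fin n)) (c : Fin n → ℕ), (∀ i, c i < 2 ^ k) →
      Hc f A ∅ ≤ ∑ j ∈ Finset.range (2 ^ k), Hc f (A.filter fun i => c i = j) ∅ +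
        2 * k * ∑ i ∈ A, infl f i := by
  induction k with
  | zero =>
    intro A c hc
    have h1 : A.filter (fun i => c i = 0) = A := by
      rw [Finset.filter_true_of_mem]
      intro i _
      have := hc i
      rw [pow_zero] at this
      omega
    simp [h1]
  | succ k ih =>
    intro A c hc
    set A0 := A.filter fun i => c i % 2 = 0 with hA0
    set A1 := A.filter fun i => ¬ c i % 2 = 0 with hA1
    have hU : A0 ∪ A1 = A := Finset.filter_union_filter_not_eq _ _
    have hD : Disjoint A0 A1 := Finset.disjoint_filter_filter_not _ _ _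
    have h1 := node_inf f hf A0 A1 hD
    rw [hU] at h1
    have hc' : ∀ i, c i / 2 < 2 ^ k := by
      intro i
      have := hc i
      rw [pow_succ] at this
      omega
    have h2 := ih A0 (fun i => c i / 2) hc'
    have h3 := ih A1 (fun i => c i / 2) hc'
    have h4 : ∑ i ∈ A, infl f i = ∑ i ∈ A0, infl f i + ∑ i ∈ A1, infl f i := by
      rw [← Finset.sum_union hD, hU]
    have h5 : ∑ j ∈ Finset.range (2 ^ (k + 1)), Hc f (A.filter fun i => c i = j) ∅ =
        ∑ j ∈ Finset.range (2 ^ k), Hc f (A0.filter fun i => c i / 2 = j) ∅ +
          ∑ j ∈ Finset.range (2 ^ k), Hc f (A1.filter fun i => c i / 2 = j) ∅ := by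
      have h6 : ∀ j, A0.filter (fun i => c i / 2 = j) = A.filter fun i => c i = 2 * j := by
        intro j
        rw [hA0, Finset.filter_filter]
        refine Finset.filter_congr fun i _ => ?_
        omega
      have h7 : ∀ j, A1.filter (fun i => c i / 2 = j) = A.filter fun i => c i = 2 * j + 1 := by
        intro j
        rw [hA1, Finset.filter_filter]
        refine Finset.filter_congr fun i _ => ?_
        omega
      simp only [h6, h7]
      rw [← Finset.sum_add_distrib]
      have h8 : ∀ (m : ℕ) (F : ℕ → ℝ), ∑ j ∈ Finset.range (2 * m), F j =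
          ∑ j ∈ Finset.range m, (F (2 * j) + F (2 * j + 1)) := by
        intro m F
        induction m with
        | zero => simp
        | succ m ihm =>
          rw [show 2 * (m + 1) = 2 * m + 1 + 1 by ring, Finset.sum_range_succ,
            Finset.sum_range_succ, ihm, Finset.sum_range_succ]
          ring
      rw [pow_succ, mul_comm (2 ^ k) 2, h8]
    rw [h5, h4]
    rw [h4] at h1
    push_cast
    rw [← Finset.sum_union hD, hU, h4] at h1
    nlinarith

end Pool.Agent.MP3145b1.Q
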