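import Pool.Agent.Lib.MP_3145b1_co.Q.Fin

/-!
# MP_3145b1_co, Q: the local form, code lengths
-/

set_option autoImplicit false

namespace Pool.Agent.MP3145b1.Q

open Finset Pool.Agent.MP3145b1 Pool.Agent.MP3145b1.F Pool.Agent.MP3145b1.T

variable {n : ℕ}

/-- The expected number of `v ∈ A`, `v ≠ i`, with an odd square. -/
noncomputable def thi (f : (Fin n → Bool) → ℝ) (A : Finset (Fin n)) (i : Fin n) : ℝ :=
  ∑ v ∈ A.erase i, pr f i v

/-- The node inequality for the cut given by `x`. -/
theorem node_x (f : (Fin n → Bool) → ℝ) (hf : ∀ x, f x = 1 ∨ f x = -1) (A : Finset (Fin n))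
    (x : Fin n → Bool) : Hc f A ∅ ≤ Hc f (A.filter fun v => x v = true) ∅ +
      Hc f (A.filter fun v => ¬ x v = true) ∅ +
      2 * ∑ i ∈ A, lam f i (A.filter fun v => x v ≠ x i) := by
  have h1 := node f hf (A.filter fun v => x v = true) (A.filter fun v => ¬ x v = true)
    (Finset.disjoint_filter_filter_not _ _ _)
  rw [Finset.filter_union_filter_not_eq] at h1
  rw [← Finset.sum_filter_add_sum_filter_not A (fun v => x v = true)
    (fun i => lam f i (A.filter fun v => x v ≠ x i))]
  have h2 : ∑ i ∈ A.filter (fun v => x v = true), lam f i (A.filter fun v => x v ≠ x i) =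
      ∑ i ∈ A.filter (fun v => x v = true), lam f i (A.filter fun v => ¬ x v = true) := by
    refine Finset.sum_congr rfl fun i hi => ?_
    rw [(Finset.mem_filter.1 hi).2]
  have h3 : ∑ i ∈ A.filter (fun v => ¬ x v = true), lam f i (A.filter fun v => x v ≠ x i) =
      ∑ i ∈ A.filter (fun v => ¬ x v = true), lam f i (A.filter fun v => x v = true) := by
    refine Finset.sum_congr rfl fun i hi => ?_
    have h4 : x i = false := by
      have := (Finset.mem_filter.1 hi).2
      simpa using this
    congr 1
    refine Finset.filter_congr fun v _ => ?_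
    rw [h4]
    cases x v <;> simp
  rw [h2, h3]
  linarith

theorem thi_filter (f : (Fin n → Bool) → ℝ) (A : Finset (Fin n)) (x : Fin n → Bool) (i : Fin n)
    (p : Fin n → Prop) [DecidablePred p] (hp : ∀ v, p v ↔ x v = x i) :
    thi f (A.filter p) i = ∑ v ∈ A.erase i, pr f i v * (if x i = x v then (1 : ℝ) else 0) := by
  unfold thi
  have h1 : (A.filter p).erase i = (A.erase i).filter fun v => x i = x v := by
    ext v
    simp only [Finset.mem_erase, Finset.mem_filter, hp]
    constructor
    · rintro ⟨h2, h3, h4⟩
      exact ⟨⟨h2, h3⟩, h4.symm⟩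
    · rintro ⟨⟨h2, h3⟩, h4⟩
      exact ⟨h2, h3, h4.symm⟩
  rw [h1, Finset.sum_filter]
  refine Finset.sum_congr rfl fun v _ => ?_
  split_ifs <;> ring

/-- The local form with given natural numbers. -/
theorem local_nat (f : (Fin n → Bool) → ℝ) (hf : ∀ x, f x = 1 ∨ f x = -1) (k : ℕ) :
    ∀ (A : Finset (Fin n)) (m : Fin n → ℕ), (∀ i ∈ A, m i ≤ k) →
      Hc f A ∅ ≤ ∑ i ∈ A, (2 * m i * infl f i + thi f A i / 2 ^ m i) := by
  induction k with
  | zero =>
    intro A m hm
    refine (ent_le_thA f hf A).trans (le_of_eq ?_)
    unfold thA thi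
    refine Finset.sum_congr rfl fun i hi => ?_
    have := hm i hi
    rw [Nat.le_zero.1 this]
    simp
  | succ k ih =>
    intro A m hm
    set own : (Fin n → Bool) → Fin n → ℝ := fun x i =>
      ∑ v ∈ A.erase i, pr f i v * (if x i = x v then (1 : ℝ) else 0) with hown
    set g : (Fin n → Bool) → ℝ := fun x => ∑ i ∈ A,
      (if m i = 0 then thi f A i else 2 * m i * infl f i + own x i * (1 / 2 ^ (m i - 1))) with hg
    have h1 : ∀ x, Hc f A ∅ ≤ g x := by
      intro x
      have h2 := node_x f hf A x
      have h3 := ih (A.filter fun v => x v = true) (fun i => m i - 1) (fun i hi => by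
        have := hm i (Finset.mem_of_mem_filter i hi)
        omega)
      have h4 := ih (A.filter fun v => ¬ x v = true) (fun i => m i - 1) (fun i hi => by
        have := hm i (Finset.mem_of_mem_filter i hi)
        omega)
      have h5 : ∑ i ∈ A.filter (fun v => x v = true), (2 * ((m i - 1 : ℕ) : ℝ) * infl f i +
          thi f (A.filter fun v => x v = true) i / 2 ^ (m i - 1)) =
          ∑ i ∈ A.filter (fun v => x v = true), (2 * ((m i - 1 : ℕ) : ℝ) * infl f i +
          own x i / 2 ^ (m i - 1)) := by
        refine Finset.sum_congr rfl fun i hi => ?_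
        rw [thi_filter f A x i (fun v => x v = true) fun v => by
          rw [(Finset.mem_filter.1 hi).2]]
      have h6 : ∑ i ∈ A.filter (fun v => ¬ x v = true), (2 * ((m i - 1 : ℕ) : ℝ) * infl f i +
          thi f (A.filter fun v => ¬ x v = true) i / 2 ^ (m i - 1)) =
          ∑ i ∈ A.filter (fun v => ¬ x v = true), (2 * ((m i - 1 : ℕ) : ℝ) * infl f i +
          own x i / 2 ^ (m i - 1)) := by
        refine Finset.sum_congr rfl fun i hi => ?_
        have h7 : x i = false := by
          have := (Finset.mem_filter.1 hi).2
          simpa using this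
        rw [thi_filter f A x i (fun v => ¬ x v = true) fun v => by
          rw [h7]
          cases x v <;> simp]
      rw [h5] at h3
      rw [h6] at h4
      have h8 := Finset.sum_filter_add_sum_filter_not A (fun v => x v = true)
        (fun i => 2 * ((m i - 1 : ℕ) : ℝ) * infl f i + own x i / 2 ^ (m i - 1))
      have h9 : Hc f A ∅ ≤ ∑ i ∈ A, (2 * ((m i - 1 : ℕ) : ℝ) * infl f i +
          own x i / 2 ^ (m i - 1) + 2 * lam f i (A.filter fun v => x v ≠ x i)) := by
        rw [Finset.sum_add_distrib, ← h8, ← Finset.mul_sum]
        linarith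
      refine h9.trans ?_
      rw [hg]
      refine Finset.sum_le_sum fun i _ => ?_
      by_cases hmi : m i = 0
      · rw [if_pos hmi, hmi]
        have h10 := lam_le_pr f hf i (A.filter fun v => x v ≠ x i)
        have h11 : own x i + ∑ v ∈ A.filter (fun v => x v ≠ x i), pr f i v = thi f A i := by
          have h12 : A.filter (fun v => x v ≠ x i) = (A.erase i).filter fun v => ¬ x i = x v := by
            ext v
            simp only [Finset.mem_erase, Finset.mem_filter]
            constructor
            · rintro ⟨h2, h3⟩
              exact ⟨⟨fun h => h3 (by rw [h]), h2⟩, fun h => h3 h.symm⟩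
            · rintro ⟨⟨_, h3⟩, h4⟩
              exact ⟨h3, fun h => h4 h.symm⟩
          rw [h12]
          have h13 : own x i = ∑ v ∈ (A.erase i).filter (fun v => x i = x v), pr f i v := by
            rw [hown, Finset.sum_filter]
            refine Finset.sum_congr rfl fun v _ => ?_
            split_ifs <;> ring
          rw [h13]
          exact Finset.sum_filter_add_sum_filter_not _ _ _
        have h14 : 2 * (((0 : ℕ) - 1 : ℕ) : ℝ) * infl f i + own x i / 2 ^ ((0 : ℕ) - 1) =
            own x i := by
          simp
        rw [h14]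
        linarith
      · rw [if_neg hmi]
        have h10 := lam_le_infl f i (A.filter fun v => x v ≠ x i)
        have h11 : ((m i - 1 : ℕ) : ℝ) = m i - 1 := by
          rw [Nat.cast_sub (Nat.one_le_iff_ne_zero.2 hmi)]
          simp
        rw [h11, mul_one_div]
        nlinarith
    have h2 : Hc f A ∅ ≤ mean g := by
      have h3 := mean_mono h1
      rwa [mean_const] at h3
    refine h2.trans (le_of_eq ?_)
    rw [hg, mean_sum]
    refine Finset.sum_congr rfl fun i _ => ?_
    by_cases hmi : m i = 0
    · simp only [hmi, if_true, mean_const]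
      simp
    · simp only [hmi, if_false]
      rw [mean_add, mean_const]
      have h3 : mean (fun x => own x i * (1 / 2 ^ (m i - 1))) = thi f A i / 2 ^ m i := by
        have h4 : (fun x => own x i * (1 / 2 ^ (m i - 1))) =
            fun x => (1 / 2 ^ (m i - 1) : ℝ) * own x i := by
          funext x
          ring
        have h5 : mean (fun x => own x i) = thi f A i / 2 := by
          rw [hown, mean_sum]
          unfold thi
          rw [Finset.sum_div]
          refine Finset.sum_congr rfl fun v hv => ?_
          rw [mean_mul, mean_same i v (Finset.ne_of_mem_erase hv).symm]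
          ring
        rw [h4, mean_mul, h5]
        obtain ⟨r, hr⟩ : ∃ r, m i = r + 1 := ⟨m i - 1, by omega⟩
        rw [hr, Nat.add_sub_cancel, pow_succ]
        field_simp
      rw [h3]

/-- `D` for `D ≤ 1`, and `1 + log_2 D` for `D > 1`. -/
noncomputable def phi (D : ℝ) : ℝ := if D ≤ 1 then D else 1 + Real.logb 2 D

theorem choose_m (a t : ℝ) (ha : 0 ≤ a) (hta : t ≤ 2 * 0 ∨ 0 < a) (ht : 0 ≤ t) :
    ∃ m : ℕ, 2 * (m : ℝ) * a + t / 2 ^ m ≤ 2 * a * phi (t / (2 * a)) := by
  rcases ha.eq_or_lt with h | h
  · refine ⟨0, ?_⟩
    rcases hta with h1 | h1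
    · rw [← h]
      simp only [mul_zero, zero_mul, pow_zero, div_one, zero_add]
      linarith
    · rw [← h] at h1
      exact absurd h1 (lt_irrefl _)
  · unfold phi
    split_ifs with h1
    · refine ⟨0, ?_⟩
      have h2 : 2 * a * (t / (2 * a)) = t := by field_simp
      rw [h2]
      simp
    · push Not at h1
      obtain ⟨k, hk⟩ := num (2 * (t / (2 * a))) (by linarith)
      refine ⟨k, ?_⟩
      have h2 : t / 2 ^ k = a * (2 * (t / (2 * a)) / 2 ^ k) := by
        field_simp
      have h3 : Real.logb 2 (2 * (t / (2 * a))) = 1 + Real.logb 2 (t / (2 * a)) := by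
        rw [Real.logb_mul (by norm_num) (by positivity), Real.logb_self_eq_one (by norm_num)]
      rw [h3] at hk
      rw [h2]
      have h4 := mul_le_mul_of_nonneg_left hk h.le
      linarith

theorem thi_nonneg (f : (Fin n → Bool) → ℝ) (A : Finset (Fin n)) (i : Fin n) : 0 ≤ thi f A i :=
  Finset.sum_nonneg fun v _ => pr_nonneg f i v

theorem thi_zero (f : (Fin n → Bool) → ℝ) (hf : ∀ x, f x = 1 ∨ f x = -1) (A : Finset (Fin n))
    (i : Fin n) (h : infl f i = 0) : thi f A i ≤ 0 := by
  unfold thi
  refine Finset.sum_nonpos fun v _ => ?_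
  have := pr_le f hf i v
  rw [h] at this
  linarith

/-- The local form. -/
theorem local_phi (f : (Fin n → Bool) → ℝ) (hf : ∀ x, f x = 1 ∨ f x = -1) (A : Finset (Fin n)) :
    Hc f A ∅ ≤ 2 * ∑ i ∈ A, infl f i * phi (thi f A i / (2 * infl f i)) := by
  have h1 : ∀ i, ∃ m : ℕ, 2 * (m : ℝ) * infl f i + thi f A i / 2 ^ m ≤
      2 * infl f i * phi (thi f A i / (2 * infl f i)) := by
    intro i
    refine choose_m _ _ (infl_nonneg f hf i) ?_ (thi_nonneg f A i)
    rcases (infl_nonneg f hf i).eq_or_lt with h | h
    · left
      have := thi_zero f hf A i h.symm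
      linarith
    · exact Or.inr h
  choose m hm using h1
  have h2 := local_nat f hf (A.sup m) A m (fun i hi => Finset.le_sup hi)
  refine h2.trans ?_
  rw [Finset.mul_sum]
  refine Finset.sum_le_sum fun i _ => ?_
  have := hm i
  linarith

/-! ### Code lengths -/

theorem kraft_aux (f : (Fin n → Bool) → ℝ) (hf : ∀ x, f x = 1 ∨ f x = -1) (N : ℕ) :
    ∀ (J : Finset ℕ) (P : ℕ → Finset (Fin n)) (l : ℕ → ℕ) (L : ℕ), J.card + ∑ j ∈ J, l j ≤ N →
      (∀ i ∈ J, ∀ j ∈ J, i ≠ j → Disjoint (P i) (P j)) → (∀ j ∈ J, l j ≤ L) →
      ∑ j ∈ J, 2 ^ (L - l j) ≤ 2 ^ L →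
      Hc f (J.biUnion P) ∅ ≤ ∑ j ∈ J, (Hc f (P j) ∅ + 2 * l j * ∑ i ∈ P j, infl f i) := by
  have hI : ∀ A : Finset (Fin n), 0 ≤ ∑ i ∈ A, infl f i := fun A =>
    Finset.sum_nonneg fun i _ => infl_nonneg f hf i
  induction N with
  | zero =>
    intro J P l L hN _ _ _
    have h1 : J = ∅ := by
      rw [← Finset.card_eq_zero]
      omega
    rw [h1]
    simp [ent_none f hf]
  | succ N ih =>
    intro J P l L hN hdis hL hK
    rcases J.eq_empty_or_nonempty with h1 | hne
    · rw [h1]
      simp [ent_none f hf]
    obtain ⟨a, ha, hmax⟩ := Finset.exists_max_image J l hne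
    -- we may take `L = l a`
    have hK' : ∑ j ∈ J, 2 ^ (l a - l j) ≤ 2 ^ l a := by
      have h2 : ∑ j ∈ J, 2 ^ (L - l j) = 2 ^ (L - l a) * ∑ j ∈ J, 2 ^ (l a - l j) := by
        rw [Finset.mul_sum]
        refine Finset.sum_congr rfl fun j hj => ?_
        rw [← pow_add]
        congr 1
        have := hmax j hj
        have := hL a ha
        omega
      have h3 : 2 ^ L = 2 ^ (L - l a) * 2 ^ l a := by
        rw [← pow_add]
        congr 1
        have := hL a ha
        omega
      rw [h2, h3] at hK
      exact Nat.le_of_mul_le_mul_left hK (by positivity)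
    rcases Nat.eq_zero_or_pos (l a) with h0 | hpos
    · -- one block
      have h2 : J.card ≤ 1 := by
        have h3 : ∑ j ∈ J, 2 ^ (l a - l j) = J.card := by
          rw [Finset.sum_congr rfl fun j _ => by rw [h0, Nat.zero_sub, pow_zero],
            Finset.sum_const, smul_eq_mul, mul_one]
        rw [h3, h0, pow_zero] at hK'
        exact hK'
      have h4 : J = {a} := by
        rw [Finset.eq_singleton_iff_unique_mem]
        exact ⟨ha, fun j hj => Finset.card_le_one.1 h2 j hj a ha⟩
      rw [h4, Finset.singleton_biUnion, Finset.sum_singleton]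
      have := hI (P a)
      have h5 : 0 ≤ 2 * (l a : ℝ) * ∑ i ∈ P a, infl f i := by positivity
      linarith
    by_cases hex : ∃ b ∈ J, b ≠ a ∧ l b = l a
    · -- two blocks of maximal length
      obtain ⟨b, hb, hba, hlb⟩ := hex
      have hdab : Disjoint (P a) (P b) := hdis a ha b hb hba.symm
      have haJ' : a ∈ J.erase b := Finset.mem_erase.2 ⟨hba.symm, ha⟩
      have hne' : ∀ j ∈ (J.erase b).erase a, j ≠ a ∧ j ≠ b ∧ j ∈ J := by
        intro j hj
        rw [Finset.mem_erase, Finset.mem_erase] at hj
        exact ⟨hj.1, hj.2.1, hj.2.2⟩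
      have h2 := ih (J.erase b) (Function.update P a (P a ∪ P b)) (Function.update l a (l a - 1))
        (l a) ?_ ?_ ?_ ?_
      · have h3 : (J.erase b).biUnion (Function.update P a (P a ∪ P b)) = J.biUnion P := by
          ext v
          simp only [Finset.mem_biUnion, Finset.mem_erase]
          constructor
          · rintro ⟨j, ⟨hj1, hj2⟩, hj3⟩
            by_cases hja : j = a
            · subst hja
              rw [Function.update_self, Finset.mem_union] at hj3
              rcases hj3 with hj3 | hj3
              · exact ⟨j, hj2, hj3⟩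
              · exact ⟨b, hb, hj3⟩
            · rw [Function.update_of_ne hja] at hj3
              exact ⟨j, hj2, hj3⟩
          · rintro ⟨j, hj2, hj3⟩
            by_cases hjb : j = b
            · subst hjb
              exact ⟨a, ⟨hba.symm, ha⟩, by
                rw [Function.update_self, Finset.mem_union]
                exact Or.inr hj3⟩
            · by_cases hja : j = a
              · subst hja
                exact ⟨j, ⟨hjb, hj2⟩, by
                  rw [Function.update_self, Finset.mem_union]
                  exact Or.inl hj3⟩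
              · exact ⟨j, ⟨hjb, hj2⟩, by rwa [Function.update_of_ne hja]⟩
        rw [h3] at h2
        refine h2.trans ?_
        rw [← Finset.add_sum_erase J _ hb, ← Finset.add_sum_erase (J.erase b) _ haJ',
          ← Finset.add_sum_erase (J.erase b) _ haJ', Function.update_self, Function.update_self]
        have h4 : ∑ j ∈ (J.erase b).erase a, (Hc f (Function.update P a (P a ∪ P b) j) ∅ +
            2 * (Function.update l a (l a - 1) j : ℝ) *
              ∑ i ∈ Function.update P a (P a ∪ P b) j, infl f i) =
            ∑ j ∈ (J.erase b).erase a, (Hc f (P j) ∅ + 2 * (l j : ℝ) * ∑ i ∈ P j, infl f i) := by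
          refine Finset.sum_congr rfl fun j hj => ?_
          rw [Function.update_of_ne (hne' j hj).1, Function.update_of_ne (hne' j hj).1]
        rw [h4]
        have h5 := node_inf f hf (P a) (P b) hdab
        rw [Finset.sum_union hdab] at h5 ⊢
        have h6 : ((l a - 1 : ℕ) : ℝ) = l a - 1 := by
          rw [Nat.cast_sub hpos]
          simp
        rw [h6, hlb]
        nlinarith
      · -- size
        rw [Finset.card_erase_of_mem hb, ← Finset.add_sum_erase _ _ haJ', Function.update_self]
        rw [← Finset.add_sum_erase J _ hb, ← Finset.add_sum_erase (J.erase b) _ haJ'] at hN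
        have h3 : ∑ j ∈ (J.erase b).erase a, Function.update l a (l a - 1) j =
            ∑ j ∈ (J.erase b).erase a, l j :=
          Finset.sum_congr rfl fun j hj => by rw [Function.update_of_ne (hne' j hj).1]
        rw [h3]
        have h4 : 0 < J.card := Finset.card_pos.2 hne
        omega
      · -- disjoint
        intro i hi j hj hij
        rw [Finset.mem_erase] at hi hj
        by_cases hia : i = a
        · subst hia
          rw [Function.update_self, Function.update_of_ne hij.symm, Finset.disjoint_union_left]
          exact ⟨hdis i hi.2 j hj.2 hij, hdis b hb j hj.2 hj.1.symm⟩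
        · rw [Function.update_of_ne hia]
          by_cases hja : j = a
          · subst hja
            rw [Function.update_self, Finset.disjoint_union_right]
            exact ⟨hdis i hi.2 j hj.2 hij, hdis i hi.2 b hb hi.1⟩
          · rw [Function.update_of_ne hja]
            exact hdis i hi.2 j hj.2 hij
      · intro j hj
        by_cases hja : j = a
        · subst hja
          rw [Function.update_self]
          omega
        · rw [Function.update_of_ne hja]
          exact hmax j (Finset.mem_of_mem_erase hj)
      · -- Kraft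
        rw [← Finset.add_sum_erase _ _ haJ', Function.update_self]
        rw [← Finset.add_sum_erase J _ hb, ← Finset.add_sum_erase (J.erase b) _ haJ'] at hK'
        have h3 : ∑ j ∈ (J.erase b).erase a, 2 ^ (l a - Function.update l a (l a - 1) j) =
            ∑ j ∈ (J.erase b).erase a, 2 ^ (l a - l j) :=
          Finset.sum_congr rfl fun j hj => by rw [Function.update_of_ne (hne' j hj).1]
        rw [h3]
        have h4 : l a - (l a - 1) = 1 := by omega
        rw [h4, pow_one]
        rw [hlb, Nat.sub_self, pow_zero] at hK'
        omega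
    · -- one block of maximal length: shorten it
      push Not at hex
      have hlt : ∀ j ∈ J.erase a, l j < l a := by
        intro j hj
        rw [Finset.mem_erase] at hj
        exact lt_of_le_of_ne (hmax j hj.2) (hex j hj.2 hj.1)
      have h2 := ih J P (Function.update l a (l a - 1)) (l a) ?_ hdis ?_ ?_
      · refine h2.trans (Finset.sum_le_sum fun j _ => ?_)
        by_cases hja : j = a
        · subst hja
          rw [Function.update_self]
          have h3 : ((l j - 1 : ℕ) : ℝ) ≤ l j := by
            exact_mod_cast Nat.sub_le _ _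
          have := hI (P j)
          nlinarith
        · rw [Function.update_of_ne hja]
      · rw [← Finset.add_sum_erase _ _ ha, Function.update_self]
        rw [← Finset.add_sum_erase J _ ha] at hN
        have h3 : ∑ j ∈ J.erase a, Function.update l a (l a - 1) j = ∑ j ∈ J.erase a, l j :=
          Finset.sum_congr rfl fun j hj => by
            rw [Function.update_of_ne (Finset.ne_of_mem_erase hj)]
        rw [h3]
        omega
      · intro j hj
        by_cases hja : j = a
        · subst hja
          rw [Function.update_self]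
          omega
        · rw [Function.update_of_ne hja]
          exact hmax j hj
      · rw [← Finset.add_sum_erase _ _ ha, Function.update_self]
        rw [← Finset.add_sum_erase J _ ha] at hK'
        have h3 : ∑ j ∈ J.erase a, 2 ^ (l a - Function.update l a (l a - 1) j) =
            ∑ j ∈ J.erase a, 2 ^ (l a - l j) :=
          Finset.sum_congr rfl fun j hj => by
            rw [Function.update_of_ne (Finset.ne_of_mem_erase hj)]
        rw [h3]
        have h4 : l a - (l a - 1) = 1 := by omega
        rw [h4, pow_one]
        rw [Nat.sub_self, pow_zero] at hK'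
        have h5 : 2 ∣ ∑ j ∈ J.erase a, 2 ^ (l a - l j) := by
          refine Finset.dvd_sum fun j hj => ?_
          have := hlt j hj
          exact dvd_pow_self 2 (by omega)
        have h6 : 2 ∣ 2 ^ l a := dvd_pow_self 2 (by omega)
        omega

end Pool.Agent.MP3145b1.Q
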